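import Mathlib

/-! Subgroups generated by a bounded number of elements. -/

namespace Pool.Agent.Helper41

open Subgroup

variable {G : Type*} [Group G] {G' : Type*} [Group G']

/-- `H` is generated by at most `k` elements. -/
def GenBy (H : Subgroup G) (k : ℕ) : Prop := ∃ f : Fin k → G, closure (Set.range f) = H

theorem GenBy.mono {H : Subgroup G} {k l : ℕ} (h : GenBy H k) (hkl : k ≤ l) : GenBy H l := by
  obtain ⟨f, hf⟩ := h
  refine ⟨fun i => if h : i.1 < k then f ⟨i.1, h⟩ else 1, le_antisymm ?_ ?_⟩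
  · rw [closure_le]
    rintro _ ⟨i, rfl⟩
    dsimp only
    split_ifs with h
    · rw [← hf]; exact subset_closure ⟨_, rfl⟩
    · exact one_mem _
  · rw [← hf, closure_le]
    rintro _ ⟨i, rfl⟩
    refine subset_closure ⟨⟨i.1, lt_of_lt_of_le i.2 hkl⟩, ?_⟩
    simp

theorem genBy_bot (k : ℕ) : GenBy (⊥ : Subgroup G) k :=
  GenBy.mono (k := 0) ⟨fun i => i.elim0, by simp⟩ (Nat.zero_le _)

theorem genBy_zpowers (g : G) : GenBy (zpowers g) 1 :=
  ⟨fun _ => g, by simp [Set.range_const, zpowers_eq_closure]⟩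

theorem GenBy.sup {H K : Subgroup G} {k l : ℕ} (h : GenBy H k) (h' : GenBy K l) :
    GenBy (H ⊔ K) (k + l) := by
  obtain ⟨f, hf⟩ := h
  obtain ⟨f', hf'⟩ := h'
  refine ⟨Fin.append f f', ?_⟩
  rw [← hf, ← hf', ← Subgroup.closure_union]
  congr 1
  ext x
  simp only [Set.mem_range, Set.mem_union]
  constructor
  · rintro ⟨i, rfl⟩
    refine Fin.addCases (fun j => ?_) (fun j => ?_) i
    · left; exact ⟨j, by simp⟩
    · right; exact ⟨j, by simp⟩
  · rintro (⟨j, rfl⟩ | ⟨j, rfl⟩)
    · exact ⟨Fin.castAdd _ j, by simp⟩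
    · exact ⟨Fin.natAdd _ j, by simp⟩

theorem GenBy.finset_sup {ι : Type*} (s : Finset ι) (H : ι → Subgroup G) {k : ℕ}
    (h : ∀ i ∈ s, GenBy (H i) k) : GenBy (s.sup H) (s.card * k) := by
  classical
  induction s using Finset.induction_on with
  | empty => simpa using genBy_bot (G := G) 0
  | insert a s ha ih =>
    rw [Finset.sup_insert, Finset.card_insert_of_notMem ha, Nat.succ_mul, add_comm]
    exact (h a (Finset.mem_insert_self _ _)).sup
      (ih fun i hi => h i (Finset.mem_insert_of_mem hi))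

theorem GenBy.map {H : Subgroup G} {k : ℕ} (h : GenBy H k) (φ : G →* G') :
    GenBy (H.map φ) k := by
  obtain ⟨f, hf⟩ := h
  refine ⟨fun i => φ (f i), ?_⟩
  rw [← hf, MonoidHom.map_closure, ← Set.range_comp]
  rfl

theorem GenBy.of_map {H : Subgroup G} {k : ℕ} {φ : G →* G'} (hφ : Function.Injective φ)
    (h : GenBy (H.map φ) k) : GenBy H k := by
  obtain ⟨f, hf⟩ := h
  have h1 : ∀ i, ∃ x ∈ H, φ x = f i := by
    intro i
    have : f i ∈ H.map φ := by rw [← hf]; exact subset_closure ⟨i, rfl⟩
    simpa using this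
  choose g hg hg' using h1
  refine ⟨g, ?_⟩
  apply Subgroup.map_injective hφ
  rw [MonoidHom.map_closure, ← Set.range_comp, ← hf]
  congr 2
  ext i
  exact hg' i

theorem GenBy.ext {H : Subgroup G} {k l : ℕ} (φ : G →* G')
    (h : GenBy (H.map φ) k) (h' : GenBy (H ⊓ φ.ker) l) : GenBy H (k + l) := by
  obtain ⟨f, hf⟩ := h
  have h1 : ∀ i, ∃ x ∈ H, φ x = f i := by
    intro i
    have : f i ∈ H.map φ := by rw [← hf]; exact subset_closure ⟨i, rfl⟩
    simpa using this
  choose g hg hg' using h1
  have h2 : GenBy (closure (Set.range g)) k := ⟨g, rfl⟩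
  have h3 := h2.sup h'
  convert h3 using 1
  have hmap : (closure (Set.range g)).map φ = H.map φ := by
    rw [MonoidHom.map_closure, ← Set.range_comp, ← hf]
    congr 2
    ext i
    exact hg' i
  apply le_antisymm
  · intro x hx
    have : φ x ∈ (closure (Set.range g)).map φ := by
      rw [hmap]; exact mem_map_of_mem _ hx
    obtain ⟨y, hy, hyx⟩ := this
    have hyH : y ∈ H := by
      have : closure (Set.range g) ≤ H := by
        rw [closure_le]; rintro _ ⟨i, rfl⟩; exact hg i
      exact this hy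
    have : x = y * (y⁻¹ * x) := by group
    rw [this]
    refine mul_mem (mem_sup_left hy) (mem_sup_right ?_)
    refine ⟨H.mul_mem (H.inv_mem hyH) hx, ?_⟩
    show φ (y⁻¹ * x) = 1
    rw [map_mul, map_inv, hyx]; group
  · refine sup_le ?_ inf_le_left
    rw [closure_le]; rintro _ ⟨i, rfl⟩; exact hg i

theorem GenBy.comap_equiv {H : Subgroup G'} {k : ℕ} (e : G ≃* G') (h : GenBy H k) :
    GenBy (H.comap e.toMonoidHom) k := by
  have := h.map e.symm.toMonoidHom
  convert this using 1
  ext x
  simp only [mem_comap, MulEquiv.coe_toMonoidHom, mem_map]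
  constructor
  · intro hx; exact ⟨e x, hx, by simp⟩
  · rintro ⟨y, hy, rfl⟩; simpa using hy

/-- A subgroup of a subgroup. -/
theorem GenBy.subgroupOf {H K : Subgroup G} {k : ℕ} (hHK : H ≤ K) :
    GenBy (H.subgroupOf K) k ↔ GenBy H k := by
  constructor
  · intro h
    have := h.map K.subtype
    rwa [Subgroup.subgroupOf_map_subtype, inf_eq_left.2 hHK] at this
  · intro h
    apply GenBy.of_map K.subtype_injective
    rwa [Subgroup.subgroupOf_map_subtype, inf_eq_left.2 hHK]

theorem genBy_top_iff {H : Subgroup G} {k : ℕ} : GenBy (⊤ : Subgroup H) k ↔ GenBy H k := by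
  rw [← GenBy.subgroupOf (le_refl H), Subgroup.subgroupOf_self]

/-- A finite `p`-group of order `p ^ a` is generated by `a` elements. -/
theorem genBy_of_card_eq_pow {p : ℕ} [hp : Fact p.Prime] (a : ℕ) :
    ∀ H : Subgroup G, Nat.card H = p ^ a → GenBy H a := by
  induction a with
  | zero =>
    intro H h
    have : H = ⊥ := by
      rw [pow_zero] at h
      exact Subgroup.card_eq_one.1 h
    rw [this]; exact genBy_bot 0
  | succ a ih =>
    intro H h
    have hfin : Finite H := Nat.finite_of_card_ne_zero (by rw [h]; exact pow_ne_zero _ hp.out.ne_zero)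
    obtain ⟨K, hK⟩ := Sylow.exists_subgroup_card_pow_prime (G := H) p (n := a)
      (by rw [h]; exact pow_dvd_pow _ (Nat.le_succ _))
    set K' : Subgroup G := K.map H.subtype with hK'
    have hcard : Nat.card K' = p ^ a := by
      rw [← hK]
      exact Nat.card_congr (K.equivMapOfInjective _ H.subtype_injective).symm.toEquiv
    have hKH : K' ≤ H := Subgroup.map_subtype_le K
    have hlt : K' < H := by
      refine lt_of_le_of_ne hKH ?_
      intro he
      rw [he, h] at hcard
      exact absurd (Nat.pow_right_injective hp.out.two_le hcard) (by omega)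
    obtain ⟨g, hg, hgK⟩ := SetLike.exists_of_lt hlt
    have h1 := (ih K' hcard).sup (genBy_zpowers g)
    convert h1 using 1
    have hle : K' ⊔ zpowers g ≤ H := sup_le hKH (by simpa using hg)
    symm
    apply Subgroup.eq_of_le_of_card_ge hle
    have hd1 : Nat.card K' ∣ Nat.card (K' ⊔ zpowers g : Subgroup G) :=
      Subgroup.card_dvd_of_le le_sup_left
    have hd2 : Nat.card (K' ⊔ zpowers g : Subgroup G) ∣ Nat.card H := Subgroup.card_dvd_of_le hle
    rw [hcard] at hd1
    rw [h] at hd2
    obtain ⟨b, hb, hb'⟩ := (Nat.dvd_prime_pow hp.out).1 hd2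
    rw [hb'] at hd1 ⊢
    rw [h]
    have hab : a ≤ b := (Nat.pow_dvd_pow_iff_le_right hp.out.one_lt).1 hd1
    apply Nat.pow_le_pow_right hp.out.pos
    by_contra hcon
    have hba : b = a := by omega
    have : K' = K' ⊔ zpowers g := by
      have : Finite (K' ⊔ zpowers g : Subgroup G) :=
        Nat.finite_of_card_ne_zero (by rw [hb']; exact pow_ne_zero _ hp.out.ne_zero)
      apply Subgroup.eq_of_le_of_card_ge le_sup_left
      rw [hb', hcard, hba]
    apply hgK
    rw [this]
    exact mem_sup_right (mem_zpowers g)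

end Pool.Agent.Helper41
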