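import Mathlib
import Pool.Agent.Helper41.Gen

/-! Counting lemmas. -/

namespace Pool.Agent.Helper41

/-- Number of subgroups of a finite group all of whose subgroups are `k`-generated. -/
theorem card_subgroup_le {A : Type*} [Group A] [Finite A] (k : ℕ)
    (h : ∀ H : Subgroup A, GenBy H k) : Nat.card (Subgroup A) ≤ Nat.card A ^ k := by
  have h1 : Function.Surjective (fun f : Fin k → A => Subgroup.closure (Set.range f)) := by
    intro H
    obtain ⟨f, hf⟩ := h H
    exact ⟨f, hf⟩
  have h2 := Nat.card_le_card_of_surjective _ h1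
  rwa [Nat.card_fun, Nat.card_eq_fintype_card (α := Fin k), Fintype.card_fin] at h2

section count

variable {Γ : Type*} [Group Γ]

theorem count_index (A : Subgroup Γ) [Finite A] (β : Γ) (hβ : ∀ x ∈ A, x * β = β * x)
    (N0 : Subgroup Γ)
    (hgen : ∀ g : Γ, ∃ x ∈ A, ∃ s : ℤ, ∃ n ∈ N0, g = x * β ^ s * n) (n : ℕ)
    (S : Set (Subgroup Γ)) (hS : ∀ H ∈ S, N0 ≤ H ∧ H.index ≠ 0 ∧ H.index ≤ n) :
    S.Finite ∧ S.ncard ≤ Nat.card (Subgroup A) * Nat.card A * (n + 1) := by
  classical
  have hex : ∀ H : S, ∃ t, 0 < t ∧ ∃ x ∈ A, x * β ^ t ∈ H.1 := by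
    rintro ⟨H, hH⟩
    obtain ⟨t, h0, h1, h2⟩ := Subgroup.exists_pow_mem_of_index_ne_zero (hS H hH).2.1 β
    exact ⟨t, h0, 1, A.one_mem, by simpa using h2⟩
  have hle : ∀ H : S, Nat.find (hex H) < n + 1 := by
    rintro ⟨H, hH⟩
    obtain ⟨t, h0, h1, h2⟩ := Subgroup.exists_pow_mem_of_index_ne_zero (hS H hH).2.1 β
    have h3 : Nat.find (hex ⟨H, hH⟩) ≤ t :=
      Nat.find_min' _ ⟨h0, 1, A.one_mem, by simpa using h2⟩
    have := (hS H hH).2.2
    omega
  have hcomm : ∀ x ∈ A, ∀ s : ℤ, Commute x (β ^ s) := fun x hx s =>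
    Commute.zpow_right (hβ x hx) s
  choose hpos x hxA hx using fun H : S => Nat.find_spec (hex H)
  let f : S → Subgroup A × A × Fin (n + 1) := fun H =>
    (H.1.subgroupOf A, ⟨x H, hxA H⟩, ⟨Nat.find (hex H), hle H⟩)
  -- one inclusion
  have key : ∀ H K : S, f H = f K → ∀ h ∈ H.1, h ∈ K.1 := by
    intro H K hHK h hh
    simp only [f, Prod.mk.injEq, Subtype.mk.injEq, Fin.mk.injEq] at hHK
    obtain ⟨e1, e2, e3⟩ := hHK
    obtain ⟨y, hy, s, n0, hn0, hhe⟩ := hgen h
    have hn0H := (hS H.1 H.2).1 hn0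
    have hn0K := (hS K.1 K.2).1 hn0
    have h1 : y * β ^ s ∈ H.1 := by
      have : y * β ^ s = h * n0⁻¹ := by rw [hhe]; group
      rw [this]
      exact H.1.mul_mem hh (H.1.inv_mem hn0H)
    rw [hhe]
    refine K.1.mul_mem ?_ hn0K
    -- notation
    set t := Nat.find (hex H) with ht
    set z := x H with hz
    have htpos : 0 < t := hpos H
    -- division
    have hs : s = t * (s / t) + s % t := (Int.mul_ediv_add_emod s t).symm
    have hr0 : 0 ≤ s % t := Int.emod_nonneg s (by omega)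
    have hr1 : s % t < t := Int.emod_lt_of_pos s (by omega)
    have hpw : ∀ q : ℤ, (z * β ^ t) ^ q = z ^ q * β ^ (t * q) := by
      intro q
      have hc : Commute z (β ^ t) := by
        have := hcomm z (hxA H) t
        rwa [zpow_natCast] at this
      rw [hc.mul_zpow, ← zpow_natCast, ← zpow_mul]
    have h2 : y * z ^ (-(s / t)) * β ^ (s % t) ∈ H.1 := by
      have e : y * z ^ (-(s / t)) * β ^ (s % t) = (y * β ^ s) * (z * β ^ t) ^ (-(s / t)) := by
        rw [hpw]
        have hc2 : Commute (z ^ (-(s / t))) (β ^ s) := hcomm _ (A.zpow_mem (hxA H) _) s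
        rw [← mul_assoc, mul_assoc y (β ^ s), ← hc2.eq, mul_assoc, mul_assoc, mul_assoc,
          ← zpow_add]
        congr 3
        linarith
      rw [e]
      exact H.1.mul_mem h1 (H.1.zpow_mem (hx H) _)
    have hr : s % t = 0 := by
      by_contra hne
      have hlt : (s % t).toNat < t := by omega
      have := Nat.find_min (hex H) hlt
      apply this
      refine ⟨by omega, y * z ^ (-(s / t)), A.mul_mem hy (A.zpow_mem (hxA H) _), ?_⟩
      rw [← zpow_natCast, Int.toNat_of_nonneg hr0]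
      exact h2
    rw [hr, zpow_zero, mul_one] at h2
    have hwA : y * z ^ (-(s / t)) ∈ A := A.mul_mem hy (A.zpow_mem (hxA H) _)
    have h3 : (⟨y * z ^ (-(s / t)), hwA⟩ : A) ∈ H.1.subgroupOf A := h2
    rw [e1] at h3
    have h4 : y * z ^ (-(s / t)) ∈ K.1 := h3
    have h5 : z * β ^ t ∈ K.1 := by
      have := hx K
      rw [← e2, ← e3] at this
      exact this
    have h6 : y * β ^ s = y * z ^ (-(s / t)) * (z * β ^ t) ^ (s / t) := by
      rw [hpw, ← mul_assoc, mul_assoc y, ← zpow_add, neg_add_cancel, zpow_zero, mul_one]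
      congr 2
      rw [hr, add_zero] at hs
      exact hs
    rw [h6]
    exact K.1.mul_mem h4 (K.1.zpow_mem h5 _)
  have hinj : Function.Injective f := by
    intro H K hHK
    apply Subtype.ext
    apply le_antisymm
    · exact key H K hHK
    · exact key K H hHK.symm
  have hfin : Finite S := Finite.of_injective f hinj
  refine ⟨Set.toFinite S, ?_⟩
  have h1 := Nat.card_le_card_of_injective f hinj
  rw [Nat.card_prod, Nat.card_prod, Nat.card_eq_fintype_card (α := Fin (n + 1)),
    Fintype.card_fin, ← mul_assoc] at h1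
  exact h1

end count

end Pool.Agent.Helper41
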