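import Mathlib
import Pool.Agent.Helper41.Gen

/-! Eigenspaces of invertible linear maps, and the decompositions they define. -/

namespace Pool.Agent.Helper41

open Module Module.End
open scoped Pointwise

variable {K V : Type*} [Field K] [AddCommGroup V] [Module K V]

/-- The eigenspace. -/
abbrev eig (g : V ≃ₗ[K] V) (μ : K) : Submodule K V := eigenspace (g.toLinearMap) μ

theorem mem_eig {g : V ≃ₗ[K] V} {μ : K} {v : V} : v ∈ eig g μ ↔ g v = μ • v := by
  simp [eig]

theorem smul_sub_def (g : V ≃ₗ[K] V) (W : Submodule K V) : g • W = W.map g.toLinearMap := rfl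

theorem smul_mem_smul {g : V ≃ₗ[K] V} {W : Submodule K V} {v : V} (hv : v ∈ W) : g v ∈ g • W :=
  ⟨v, hv, rfl⟩

theorem apply_mem_of_smul_eq {g : V ≃ₗ[K] V} {W : Submodule K V} (h : g • W = W) {v : V}
    (hv : v ∈ W) : g v ∈ W := by
  have := smul_mem_smul (g := g) hv
  rwa [h] at this

theorem eig_conj (g h : V ≃ₗ[K] V) (μ : K) : eig (h * g * h⁻¹) μ = h • eig g μ := by
  ext v
  constructor
  · intro hv
    rw [mem_eig] at hv
    refine ⟨h⁻¹ v, ?_, ?_⟩
    · change (h⁻¹ v) ∈ eig g μ
      rw [mem_eig]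
      have h1 : (h⁻¹ : V ≃ₗ[K] V) ((h * g * h⁻¹) v) = (h⁻¹ : V ≃ₗ[K] V) (μ • v) := by rw [hv]
      rw [map_smul] at h1
      rw [← h1]
      change _ = h.symm (h (g (h.symm v)))
      rw [LinearEquiv.symm_apply_apply]; rfl
    · change h (h.symm v) = v
      simp
  · rintro ⟨w, hw, rfl⟩
    change w ∈ eig g μ at hw
    rw [mem_eig] at hw ⊢
    change h (g (h.symm (h w))) = μ • h w
    rw [LinearEquiv.symm_apply_apply, hw, map_smul]

/-- `g` is diagonalizable. -/
def Diag (g : V ≃ₗ[K] V) : Prop := ⨆ μ, eig g μ = ⊤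

/-- The set of (nonzero) eigenspaces. -/
def Dset (g : V ≃ₗ[K] V) : Set (Submodule K V) := {W | W ≠ ⊥ ∧ ∃ μ, W = eig g μ}

theorem Dset_conj (g h : V ≃ₗ[K] V) : Dset (h * g * h⁻¹) = h • Dset g := by
  ext W
  constructor
  · rintro ⟨h1, μ, rfl⟩
    refine ⟨eig g μ, ⟨?_, μ, rfl⟩, (eig_conj g h μ).symm⟩
    intro h2
    apply h1
    rw [eig_conj, h2, smul_sub_def, Submodule.map_bot]
  · rintro ⟨W', ⟨h1, μ, rfl⟩, rfl⟩
    refine ⟨?_, μ, (eig_conj g h μ).symm⟩
    intro h2
    apply h1
    dsimp only at h2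
    rw [smul_sub_def] at h2
    exact (Submodule.map_eq_bot_iff (e := h)).1 h2

section comm

theorem commute_of_smul {g h : V ≃ₗ[K] V} (hg : Diag g) (H : ∀ W ∈ Dset g, h • W = W) :
    h * g = g * h := by
  have key : (⊤ : Submodule K V) ≤ LinearMap.eqLocus (h * g).toLinearMap (g * h).toLinearMap := by
    rw [← hg]
    refine iSup_le fun μ => ?_
    intro v hv
    by_cases h0 : v = 0
    · rw [h0]; exact zero_mem _
    have hW : eig g μ ∈ Dset g := by
      refine ⟨?_, μ, rfl⟩
      intro hb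
      rw [hb] at hv
      exact h0 (by simpa using hv)
    have h1 : h v ∈ eig g μ := apply_mem_of_smul_eq (H _ hW) hv
    rw [mem_eig] at hv h1
    change h (g v) = g (h v)
    rw [hv, h1, map_smul]
  ext v
  exact key (Submodule.mem_top : v ∈ ⊤)

theorem smul_of_commute {g h : V ≃ₗ[K] V} (H : h * g = g * h) (μ : K) : h • eig g μ = eig g μ := by
  rw [← eig_conj]
  congr 1
  rw [H]; group

theorem smul_Dset_of_commute {g h : V ≃ₗ[K] V} (H : h * g = g * h) : ∀ W ∈ Dset g, h • W = W := by
  rintro W ⟨-, μ, rfl⟩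
  exact smul_of_commute H μ

end comm

section fin

variable [FiniteDimensional K V]

/-- The eigenvalues. -/
def specS (g : V ≃ₗ[K] V) : Set K := {μ | eig g μ ≠ ⊥}

theorem specS_finite (g : V ≃ₗ[K] V) : (specS g).Finite := by
  have := (eigenspaces_iSupIndep (g.toLinearMap : End K V))
  exact WellFoundedGT.finite_ne_bot_of_iSupIndep this

theorem specS_ncard (g : V ≃ₗ[K] V) : (specS g).ncard ≤ finrank K V := by
  have h := (eigenspaces_iSupIndep (g.toLinearMap : End K V))
  have : Fintype {i // eigenspace (g.toLinearMap : End K V) i ≠ ⊥} := (specS_finite g).fintype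
  have h2 := h.subtype_ne_bot_le_finrank
  rw [← Nat.card_coe_set_eq]
  rw [← Nat.card_eq_fintype_card] at h2
  exact h2

omit [FiniteDimensional K V] in
theorem Dset_eq_image (g : V ≃ₗ[K] V) : Dset g = eig g '' specS g := by
  ext W
  constructor
  · rintro ⟨h, μ, rfl⟩
    exact ⟨μ, h, rfl⟩
  · rintro ⟨μ, h, rfl⟩
    exact ⟨h, μ, rfl⟩

theorem Dset_finite (g : V ≃ₗ[K] V) : (Dset g).Finite := by
  rw [Dset_eq_image]; exact (specS_finite g).image _

theorem Dset_ncard (g : V ≃ₗ[K] V) : (Dset g).ncard ≤ finrank K V := by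
  rw [Dset_eq_image]
  exact (Set.ncard_image_le (specS_finite g)).trans (specS_ncard g)

/-- an element of finite order prime to the characteristic is diagonalizable -/
theorem diag_of_pow [IsAlgClosed K] {g : V ≃ₗ[K] V} {n : ℕ} (hn : (n : K) ≠ 0) (hg : g ^ n = 1) :
    Diag g := by
  have h1 : IsSemisimple (g.toLinearMap : End K V) := by
    have hsep : (Polynomial.X ^ n - Polynomial.C (1 : K)).Separable :=
      Polynomial.separable_X_pow_sub_C 1 hn one_ne_zero
    refine isSemisimple_of_squarefree_aeval_eq_zero hsep.squarefree ?_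
    simp only [map_sub, map_pow, Polynomial.aeval_X, map_one]
    rw [sub_eq_zero]
    ext v
    have : ∀ k : ℕ, (g.toLinearMap ^ k) v = (g ^ k) v := by
      intro k
      induction k with
      | zero => simp
      | succ k ih =>
        rw [pow_succ', pow_succ']
        change g ((g.toLinearMap ^ k) v) = g ((g ^ k) v)
        rw [ih]
    rw [this, hg]; rfl
  have h2 : IsFinitelySemisimple (g.toLinearMap : End K V) :=
    isFinitelySemisimple_iff_isSemisimple.2 h1
  unfold Diag eig
  have h3 := iSup_maxGenEigenspace_eq_top (g.toLinearMap : End K V)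
  rw [← h3]
  congr 1
  ext μ : 1
  exact (h2.maxGenEigenspace_eq_eigenspace μ).symm

end fin

end Pool.Agent.Helper41
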