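import Mathlib
import Pool.Agent.Helper41.Lin1

/-! Generic elements of centralizers. -/

namespace Pool.Agent.Helper41

open Module Module.End
open scoped Pointwise

variable {K V : Type*} [Field K] [AddCommGroup V] [Module K V]

/-- Diagonalizable, and ratios of different eigenvalues have order at least `M`. -/
def Good (M : ℕ) (g : V ≃ₗ[K] V) : Prop :=
  Diag g ∧ ∀ μ ∈ specS g, ∀ ν ∈ specS g, μ ≠ ν → ∀ i, 0 < i → i < M → μ ^ i ≠ ν ^ i

/-- The elements of `H` preserving every member of `E`. -/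
def Zsub (H : Subgroup (V ≃ₗ[K] V)) (E : Set (Submodule K V)) : Subgroup (V ≃ₗ[K] V) where
  carrier := {h | h ∈ H ∧ ∀ W ∈ E, h • W = W}
  mul_mem' := by
    rintro a b ⟨ha, ha'⟩ ⟨hb, hb'⟩
    exact ⟨H.mul_mem ha hb, fun W hW => by rw [mul_smul, hb' W hW, ha' W hW]⟩
  one_mem' := ⟨H.one_mem, fun W _ => one_smul _ W⟩
  inv_mem' := by
    rintro a ⟨ha, ha'⟩
    exact ⟨H.inv_mem ha, fun W hW => by rw [inv_smul_eq_iff, ha' W hW]⟩

theorem mem_Zsub {H : Subgroup (V ≃ₗ[K] V)} {E : Set (Submodule K V)} {h : V ≃ₗ[K] V} :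
    h ∈ Zsub H E ↔ h ∈ H ∧ ∀ W ∈ E, h • W = W := Iff.rfl

theorem Zsub_le (H : Subgroup (V ≃ₗ[K] V)) (E : Set (Submodule K V)) : Zsub H E ≤ H :=
  fun _ h => h.1

/-- No eigenvalue of `x` occurs on two different members of `E`. -/
def Gen (E : Set (Submodule K V)) (x : V ≃ₗ[K] V) : Prop :=
  ∀ W ∈ E, ∀ W' ∈ E, W ≠ W' → ∀ μ, eig x μ ⊓ W = ⊥ ∨ eig x μ ⊓ W' = ⊥

theorem pow_apply_of_mem {q : V ≃ₗ[K] V} {α : K} {v : V} (hv : v ∈ eig q α) (i : ℕ) :
    (q ^ i) v = α ^ i • v := by
  induction i with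
  | zero => simp
  | succ i ih =>
    rw [pow_succ']
    change q ((q ^ i) v) = _
    rw [ih, map_smul, mem_eig.1 hv, smul_smul, pow_succ]

theorem ne_zero_of_mem_specS {q : V ≃ₗ[K] V} {α : K} (h : α ∈ specS q) : α ≠ 0 := by
  rintro rfl
  apply h
  rw [eq_bot_iff]
  intro v hv
  rw [mem_eig, zero_smul] at hv
  simpa using hv

theorem key_eigenvalue {q y : V ≃ₗ[K] V} {α μ : K} {i : ℕ} (hα : α ≠ 0)
    (hy : y • eig q α = eig q α) (h : eig (q ^ i * y) μ ⊓ eig q α ≠ ⊥) :
    ∃ l ∈ specS y, α ^ i * l = μ := by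
  obtain ⟨v, ⟨hv1, hv2⟩, hv0⟩ := Submodule.exists_mem_ne_zero_of_ne_bot h
  have hyv : y v ∈ eig q α := apply_mem_of_smul_eq hy hv2
  have h1 : (q ^ i * y) v = μ • v := mem_eig.1 hv1
  have h2 : α ^ i • y v = μ • v := by
    rw [← h1, ← pow_apply_of_mem hyv]; rfl
  have hαi : α ^ i ≠ 0 := pow_ne_zero _ hα
  refine ⟨(α ^ i)⁻¹ * μ, ?_, by field_simp⟩
  intro hb
  have hv3 : v ∈ eig y ((α ^ i)⁻¹ * μ) := by
    rw [mem_eig, mul_smul, ← h2, smul_smul, inv_mul_cancel₀ hαi, one_smul]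
  rw [hb] at hv3
  exact hv0 (by simpa using hv3)

section fin

variable [FiniteDimensional K V]

open Classical in
theorem bad_card {M : ℕ} {q y : V ≃ₗ[K] V} (hq : Good M q) (hy : ∀ W ∈ Dset q, y • W = W) :
    ((Finset.range M).filter (fun i => ¬ Gen (Dset q) (q ^ i * y))).card ≤
      (finrank K V) ^ 4 := by
  set Sq := (specS_finite q).toFinset with hSq
  set Sy := (specS_finite y).toFinset with hSy
  have hcq : Sq.card ≤ finrank K V := by
    rw [hSq, ← Set.ncard_eq_toFinset_card _ (specS_finite q)]; exact specS_ncard q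
  have hcy : Sy.card ≤ finrank K V := by
    rw [hSy, ← Set.ncard_eq_toFinset_card _ (specS_finite y)]; exact specS_ncard y
  have key : ∀ i, ¬ Gen (Dset q) (q ^ i * y) → ∃ t : (K × K) × (K × K),
      t.1.1 ∈ Sq ∧ t.1.2 ∈ Sq ∧ t.2.1 ∈ Sy ∧ t.2.2 ∈ Sy ∧ t.1.1 ≠ t.1.2 ∧
        t.1.1 ^ i * t.2.1 = t.1.2 ^ i * t.2.2 := by
    intro i hi
    unfold Gen at hi
    push Not at hi
    obtain ⟨W, hW, W', hW', hne, μ, h1, h2⟩ := hi
    have hWb := hW.1
    have hWb' := hW'.1
    obtain ⟨-, α, rfl⟩ := id hW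
    obtain ⟨-, β, rfl⟩ := id hW'
    obtain ⟨l, hl, hl'⟩ := key_eigenvalue (ne_zero_of_mem_specS hWb) (hy _ hW) h1
    obtain ⟨m, hm, hm'⟩ := key_eigenvalue (ne_zero_of_mem_specS hWb') (hy _ hW') h2
    refine ⟨((α, β), (l, m)), ?_, ?_, ?_, ?_, ?_, ?_⟩
    · exact (Set.Finite.mem_toFinset _).2 hWb
    · exact (Set.Finite.mem_toFinset _).2 hWb'
    · exact (Set.Finite.mem_toFinset _).2 hl
    · exact (Set.Finite.mem_toFinset _).2 hm
    · intro he
      apply hne
      simp only at he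
      rw [he]
    · simp only; rw [hl', hm']
  choose! F hF using key
  have hcard : ((Finset.range M).filter (fun i => ¬ Gen (Dset q) (q ^ i * y))).card ≤
      ((Sq ×ˢ Sq) ×ˢ (Sy ×ˢ Sy)).card := by
    apply Finset.card_le_card_of_injOn F
    · intro i hi
      simp only [Finset.coe_filter, Set.mem_ofPred_eq] at hi
      obtain ⟨h1, h2, h3, h4, -, -⟩ := hF i hi.2
      simp only [Finset.coe_product, Set.mem_prod, Finset.mem_coe]
      exact ⟨⟨h1, h2⟩, h3, h4⟩
    · have aux : ∀ i j, i < j → j < M → ¬ Gen (Dset q) (q ^ i * y) →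
          ¬ Gen (Dset q) (q ^ j * y) → F i ≠ F j := by
        intro i j hij hj hi' hj' he
        obtain ⟨h1, h2, h3, h4, h5, h6⟩ := hF i hi'
        obtain ⟨-, -, -, -, -, g6⟩ := hF j hj'
        rw [← he] at g6
        have hα : (F i).1.1 ∈ specS q := by simpa [hSq] using h1
        have hβ : (F i).1.2 ∈ specS q := by simpa [hSq] using h2
        have hl : (F i).2.1 ∈ specS y := by simpa [hSy] using h3
        have hm : (F i).2.2 ∈ specS y := by simpa [hSy] using h4
        have hα0 := ne_zero_of_mem_specS hα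
        have hβ0 := ne_zero_of_mem_specS hβ
        have hl0 := ne_zero_of_mem_specS hl
        have hm0 := ne_zero_of_mem_specS hm
        apply hq.2 _ hα _ hβ h5 (j - i) (by omega) (by omega)
        generalize (F i).1.1 = α at *
        generalize (F i).1.2 = β at *
        generalize (F i).2.1 = l at *
        generalize (F i).2.2 = m at *
        obtain ⟨d, rfl⟩ := Nat.exists_eq_add_of_lt hij
        have e1 : i + d + 1 - i = d + 1 := by omega
        rw [e1]
        have h7 : α ^ i * α ^ (d + 1) * l = β ^ i * β ^ (d + 1) * m := by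
          rw [← pow_add, ← pow_add, ← add_assoc]; exact g6
        have hc : β ^ i * m ≠ 0 := mul_ne_zero (pow_ne_zero _ hβ0) hm0
        apply mul_left_cancel₀ hc
        calc β ^ i * m * α ^ (d + 1) = α ^ i * l * α ^ (d + 1) := by rw [h6]
          _ = α ^ i * α ^ (d + 1) * l := by ring
          _ = β ^ i * β ^ (d + 1) * m := h7
          _ = β ^ i * m * β ^ (d + 1) := by ring
      intro i hi j hj he
      simp only [Finset.coe_filter, Set.mem_ofPred_eq, Finset.mem_range] at hi hj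
      rcases lt_trichotomy i j with h | h | h
      · exact absurd he (aux i j h hj.1 hi.2 hj.2)
      · exact h
      · exact absurd he.symm (aux j i h hi.1 hj.2 hi.2)
  refine hcard.trans ?_
  rw [Finset.card_product, Finset.card_product, Finset.card_product]
  calc Sq.card * Sq.card * (Sy.card * Sy.card)
      ≤ finrank K V * finrank K V * (finrank K V * finrank K V) := by gcongr
    _ = (finrank K V) ^ 4 := by ring

/-- Half of the elements of the centralizer are generic. -/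
theorem card_gen {M : ℕ} (hM : 2 * (finrank K V) ^ 4 ≤ M) (hM0 : 0 < M)
    {H : Subgroup (V ≃ₗ[K] V)} [Finite H] {q : V ≃ₗ[K] V} (hqH : q ∈ H) (hq : Good M q) :
    Nat.card (Zsub H (Dset q)) ≤
      2 * {x : V ≃ₗ[K] V | x ∈ Zsub H (Dset q) ∧ Gen (Dset q) x}.ncard := by
  classical
  have hqZ : q ∈ Zsub H (Dset q) := ⟨hqH, smul_Dset_of_commute rfl⟩
  have hfin : ((Zsub H (Dset q) : Subgroup (V ≃ₗ[K] V)) : Set (V ≃ₗ[K] V)).Finite :=
    Set.Finite.subset (Set.toFinite (H : Set (V ≃ₗ[K] V))) (Zsub_le H _)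
  set Zf := hfin.toFinset with hZf
  have hmem : ∀ x, x ∈ Zf ↔ x ∈ Zsub H (Dset q) := by intro x; simp [hZf]
  have hcZ : Nat.card (Zsub H (Dset q)) = Zf.card := by
    rw [← Set.ncard_eq_toFinset_card _ hfin]
    exact Nat.card_coe_set_eq _
  set Xf := Zf.filter (fun x => Gen (Dset q) x) with hXf
  have hcX : {x : V ≃ₗ[K] V | x ∈ Zsub H (Dset q) ∧ Gen (Dset q) x}.ncard = Xf.card := by
    rw [← Set.ncard_coe_finset]
    congr 1
    ext x
    simp [hXf, hmem]
  rw [hcZ, hcX]
  set R : (V ≃ₗ[K] V) → ℕ → Prop := fun y i => Gen (Dset q) (q ^ i * y) with hR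
  have hdc := Finset.sum_card_bipartiteAbove_eq_sum_card_bipartiteBelow (s := Zf)
    (t := Finset.range M) R
  have h1 : ∀ y ∈ Zf, M - (finrank K V) ^ 4 ≤ ((Finset.range M).bipartiteAbove R y).card := by
    intro y hy
    have hy' : ∀ W ∈ Dset q, y • W = W := ((hmem y).1 hy).2
    have hb := bad_card hq hy'
    have hs := Finset.card_filter_add_card_filter_not (s := Finset.range M)
      (fun i => Gen (Dset q) (q ^ i * y))
    rw [Finset.card_range] at hs
    unfold Finset.bipartiteAbove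
    simp only [hR]
    omega
  have h2 : ∀ i ∈ Finset.range M, (Zf.bipartiteBelow R i).card ≤ Xf.card := by
    intro i _
    apply Finset.card_le_card_of_injOn (fun y => q ^ i * y)
    · intro y hy
      simp only [Finset.bipartiteBelow, Finset.coe_filter, Set.mem_ofPred_eq] at hy
      simp only [hXf, Finset.coe_filter, Set.mem_ofPred_eq]
      refine ⟨(hmem _).2 (mul_mem (pow_mem hqZ _) ((hmem _).1 hy.1)), hy.2⟩
    · intro a _ b _ hab
      exact mul_left_cancel hab
  have h3 := Finset.card_nsmul_le_sum _ _ _ h1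
  have h4 := Finset.sum_le_card_nsmul _ _ _ h2
  rw [hdc] at h3
  have h5 := h3.trans h4
  rw [Finset.card_range, smul_eq_mul, smul_eq_mul] at h5
  have h6 : M ≤ 2 * (M - (finrank K V) ^ 4) := by omega
  have h7 : M * Zf.card ≤ M * (2 * Xf.card) := by
    calc M * Zf.card ≤ 2 * (M - (finrank K V) ^ 4) * Zf.card := by gcongr
      _ = 2 * (Zf.card * (M - (finrank K V) ^ 4)) := by ring
      _ ≤ 2 * (M * Xf.card) := by gcongr
      _ = M * (2 * Xf.card) := by ring
  exact Nat.le_of_mul_le_mul_left h7 hM0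

end fin

end Pool.Agent.Helper41
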