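import Mathlib
import Pool.Agent.Helper41.Lin2

/-! Counting decompositions for which a given element is generic; orbits of decompositions. -/

namespace Pool.Agent.Helper41

open Module Module.End
open scoped Pointwise

variable {K V : Type*} [Field K] [AddCommGroup V] [Module K V]

/-- The generalized eigenspace. -/
abbrev geig (g : V ≃ₗ[K] V) (μ : K) : Submodule K V := maxGenEigenspace (g.toLinearMap) μ

theorem inf_geig_eq_bot {x : V ≃ₗ[K] V} {W : Submodule K V} (hW : ∀ v ∈ W, x v ∈ W) {μ : K}
    (h : eig x μ ⊓ W = ⊥) : W ⊓ geig x μ = ⊥ := by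
  by_contra hne
  set f : End K V := x.toLinearMap with hf
  have hfW : ∀ v ∈ W, f v ∈ W := hW
  have h1 : (genEigenspace (LinearMap.restrict f hfW) μ ⊤) ≠ ⊥ := by
    rw [genEigenspace_restrict]
    intro hb
    apply hne
    rw [eq_bot_iff]
    intro v hv
    have : (⟨v, hv.1⟩ : W) ∈ Submodule.comap W.subtype ((f.genEigenspace μ) ⊤) := hv.2
    rw [hb] at this
    have := congrArg Subtype.val ((Submodule.mem_bot K).1 this)
    simpa using this
  have h2 : HasUnifEigenvalue (LinearMap.restrict f hfW) μ ⊤ := h1
  have h3 : HasUnifEigenvalue (LinearMap.restrict f hfW) μ 1 := h2.lt (by norm_num)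
  obtain ⟨v, hv⟩ := h3.exists_hasUnifEigenvector
  have h4 := hv.apply_eq_smul
  have h5 : (v : V) ∈ eig x μ ⊓ W := by
    refine ⟨?_, v.2⟩
    change (v : V) ∈ eig x μ
    rw [mem_eig]
    exact congrArg Subtype.val h4
  rw [h] at h5
  have h6 : (v : V) = 0 := by simpa using h5
  exact hv.2 (Subtype.ext h6)

section fin

variable [FiniteDimensional K V] [IsAlgClosed K]

theorem Dset_mem_eq {q x : V ≃ₗ[K] V} (hq : Diag q) (hx : ∀ W ∈ Dset q, x • W = W)
    (hg : Gen (Dset q) x) {W : Submodule K V} (hW : W ∈ Dset q) :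
    W = ⨆ μ ∈ {μ | eig x μ ⊓ W ≠ ⊥}, geig x μ := by
  have hcomm : x * q = q * x := commute_of_smul hq hx
  apply le_antisymm
  · have h1 : W = ⨆ μ, W ⊓ geig x μ := by
      conv_lhs => rw [← inf_top_eq W, ← iSup_maxGenEigenspace_eq_top (x.toLinearMap : End K V)]
      exact Submodule.inf_iSup_genEigenspace (fun v hv => apply_mem_of_smul_eq (hx W hW) hv) ⊤
    conv_lhs => rw [h1]
    refine iSup_le fun μ => ?_
    by_cases hμ : eig x μ ⊓ W = ⊥
    · rw [inf_geig_eq_bot (fun v hv => apply_mem_of_smul_eq (hx W hW) hv) hμ]; exact bot_le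
    · exact inf_le_right.trans (le_iSup₂_of_le μ hμ le_rfl)
  · refine iSup₂_le fun μ hμ => ?_
    have hqinv : ∀ v ∈ geig x μ, q v ∈ geig x μ := by
      have hc : Commute (x.toLinearMap : End K V) (q.toLinearMap : End K V) := by
        ext v
        exact congrArg (fun g : V ≃ₗ[K] V => g v) hcomm
      exact mapsTo_maxGenEigenspace_of_comm hc μ
    have h1 : geig x μ = ⨆ α, geig x μ ⊓ eig q α := by
      conv_lhs => rw [← inf_top_eq (geig x μ), ← hq]
      have := Submodule.inf_iSup_genEigenspace (p := geig x μ) (f := (q.toLinearMap : End K V))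
        hqinv 1
      exact this
    rw [h1]
    refine iSup_le fun α => ?_
    by_cases hα : eig q α = ⊥
    · rw [hα, inf_bot_eq]; exact bot_le
    have hαD : eig q α ∈ Dset q := ⟨hα, α, rfl⟩
    by_cases he : eig q α = W
    · rw [he]; exact inf_le_right
    · have h2 : eig x μ ⊓ eig q α = ⊥ := by
        rcases hg _ hαD _ hW he μ with h | h
        · exact h
        · exact absurd h hμ
      have h3 := inf_geig_eq_bot (fun v hv => apply_mem_of_smul_eq (hx _ hαD) hv) h2
      rw [inf_comm, h3]; exact bot_le

/-- The set of possible members of decompositions for which `x` is generic. -/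
def Tset (x : V ≃ₗ[K] V) : Set (Submodule K V) :=
  (fun s : Set K => ⨆ μ ∈ s, geig x μ) '' (Set.powerset (specS x))

omit [IsAlgClosed K] in
theorem Tset_finite (x : V ≃ₗ[K] V) : (Tset x).Finite :=
  (specS_finite x).finite_subsets.image _

omit [IsAlgClosed K] in
theorem Tset_ncard (x : V ≃ₗ[K] V) : (Tset x).ncard ≤ 2 ^ (finrank K V) := by
  refine (Set.ncard_image_le (specS_finite x).finite_subsets).trans ?_
  change (Set.powerset (specS x)).ncard ≤ _
  rw [Set.ncard_powerset _ (specS_finite x)]
  exact Nat.pow_le_pow_right (by norm_num) (specS_ncard x)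

theorem Dset_subset_Tset {q x : V ≃ₗ[K] V} (hq : Diag q) (hx : ∀ W ∈ Dset q, x • W = W)
    (hg : Gen (Dset q) x) : Dset q ⊆ Tset x := by
  intro W hW
  refine ⟨{μ | eig x μ ⊓ W ≠ ⊥}, ?_, (Dset_mem_eq hq hx hg hW).symm⟩
  intro μ hμ
  change eig x μ ≠ ⊥
  intro hb
  apply hμ
  rw [hb, bot_inf_eq]

end fin

section orbits

/-- Counting orbits by means of subsets of the group. -/
theorem card_orbits_le {G α : Type*} [Group G] [Finite G] [MulAction G α] [Finite α]
    (X : α → Set G) (c B : ℕ)
    (hX : ∀ a, Nat.card (MulAction.stabilizer G a) ≤ c * (X a).ncard)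
    (hB : ∀ g : G, {a | g ∈ X a}.ncard ≤ B) :
    Nat.card (MulAction.orbitRel.Quotient G α) ≤ c * B := by
  classical
  have : Fintype G := Fintype.ofFinite G
  have : Fintype α := Fintype.ofFinite α
  have h1 := MulAction.sum_card_fixedBy_eq_card_orbits_mul_card_group G α
  have h2 : ∑ g : G, Fintype.card (MulAction.fixedBy α g) =
      ∑ a : α, Nat.card (MulAction.stabilizer G a) := by
    have := Finset.sum_card_bipartiteAbove_eq_sum_card_bipartiteBelow
      (s := (Finset.univ : Finset G)) (t := (Finset.univ : Finset α)) (fun g a => g • a = a)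
    convert this using 2
    · rename_i g _
      rw [← Set.ncard_coe_finset, ← Nat.card_eq_fintype_card, Nat.card_coe_set_eq]
      congr 1
      ext a
      simp [Finset.bipartiteAbove, MulAction.mem_fixedBy]
    · rename_i a _
      rw [← Set.ncard_coe_finset]
      change Nat.card ((MulAction.stabilizer G a : Subgroup G) : Set G) = _
      rw [Nat.card_coe_set_eq]
      congr 1
      ext g
      simp [Finset.bipartiteBelow, MulAction.mem_stabilizer_iff]
  rw [h2] at h1
  have h3 : ∑ a : α, (X a).ncard = ∑ g : G, {a | g ∈ X a}.ncard := by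
    have := Finset.sum_card_bipartiteAbove_eq_sum_card_bipartiteBelow
      (s := (Finset.univ : Finset α)) (t := (Finset.univ : Finset G)) (fun a g => g ∈ X a)
    convert this using 2
    · rename_i a _
      rw [← Set.ncard_coe_finset]
      congr 1
      ext g
      simp [Finset.bipartiteAbove]
    · rename_i g _
      rw [← Set.ncard_coe_finset]
      congr 1
      ext a
      simp [Finset.bipartiteBelow]
  have h4 : ∑ a : α, Nat.card (MulAction.stabilizer G a) ≤ c * ∑ a : α, (X a).ncard := by
    rw [Finset.mul_sum]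
    exact Finset.sum_le_sum fun a _ => hX a
  have h5 : ∑ g : G, {a | g ∈ X a}.ncard ≤ Fintype.card G * B := by
    refine (Finset.sum_le_card_nsmul _ _ B fun g _ => hB g).trans ?_
    simp
  have h6 : Nat.card (MulAction.orbitRel.Quotient G α) =
      Fintype.card (Quotient (MulAction.orbitRel G α)) := Nat.card_eq_fintype_card
  rw [h6]
  have h7 : Fintype.card (Quotient (MulAction.orbitRel G α)) * Fintype.card G ≤
      c * B * Fintype.card G := by
    rw [← h1]
    calc _ ≤ c * ∑ a : α, (X a).ncard := h4
      _ = c * ∑ g : G, {a | g ∈ X a}.ncard := by rw [h3]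
      _ ≤ c * (Fintype.card G * B) := by gcongr
      _ = c * B * Fintype.card G := by ring
  exact Nat.le_of_mul_le_mul_right h7 Fintype.card_pos

end orbits

end Pool.Agent.Helper41
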