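import Mathlib
import Pool.Agent.Helper41.Lin3

/-! The number of orbits of good decompositions is bounded. -/

namespace Pool.Agent.Helper41

open Module Module.End
open scoped Pointwise

variable {K V : Type*} [Field K] [AddCommGroup V] [Module K V]

/-- `g` is a scalar. -/
def IsSc (g : V ≃ₗ[K] V) : Prop := ∃ c : K, ∀ v, g v = c • v

theorem IsSc.conj {g : V ≃ₗ[K] V} (h : V ≃ₗ[K] V) (hg : IsSc g) : IsSc (h * g * h⁻¹) := by
  obtain ⟨c, hc⟩ := hg
  refine ⟨c, fun v => ?_⟩
  change h (g (h.symm v)) = c • v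
  rw [hc, map_smul, LinearEquiv.apply_symm_apply]

theorem specS_conj (g h : V ≃ₗ[K] V) : specS (h * g * h⁻¹) = specS g := by
  ext μ
  change eig (h * g * h⁻¹) μ ≠ ⊥ ↔ eig g μ ≠ ⊥
  rw [eig_conj]
  constructor
  · intro h1 h2
    apply h1
    rw [h2, smul_sub_def, Submodule.map_bot]
  · intro h1 h2
    rw [smul_sub_def] at h2
    exact h1 ((Submodule.map_eq_bot_iff (e := h)).1 h2)

theorem Diag.conj {g : V ≃ₗ[K] V} (h : V ≃ₗ[K] V) (hg : Diag g) : Diag (h * g * h⁻¹) := by
  unfold Diag at *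
  have : ∀ μ, eig (h * g * h⁻¹) μ = (eig g μ).map h.toLinearMap := fun μ => eig_conj g h μ
  simp only [this]
  rw [← Submodule.map_iSup, hg, Submodule.map_top]
  exact LinearEquiv.range h

theorem Good.conj {M : ℕ} {g : V ≃ₗ[K] V} (h : V ≃ₗ[K] V) (hg : Good M g) :
    Good M (h * g * h⁻¹) := by
  refine ⟨hg.1.conj h, ?_⟩
  rw [specS_conj]
  exact hg.2

/-- The good decompositions coming from nonscalar elements of `H`. -/
def DD (M : ℕ) (H : Subgroup (V ≃ₗ[K] V)) : SubMulAction H (Set (Submodule K V)) where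
  carrier := {E | ∃ q ∈ H, Good M q ∧ ¬ IsSc q ∧ E = Dset q}
  smul_mem' := by
    rintro h _ ⟨q, hq, h1, h2, rfl⟩
    refine ⟨h.1 * q * h.1⁻¹, H.mul_mem (H.mul_mem h.2 hq) (H.inv_mem h.2), h1.conj _, ?_, ?_⟩
    · intro h3
      apply h2
      have := h3.conj (h.1⁻¹)
      convert this using 1
      group
    · rw [Dset_conj]; rfl

theorem mem_DD {M : ℕ} {H : Subgroup (V ≃ₗ[K] V)} {E : Set (Submodule K V)} :
    E ∈ DD M H ↔ ∃ q ∈ H, Good M q ∧ ¬ IsSc q ∧ E = Dset q := Iff.rfl

section fin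

variable [FiniteDimensional K V]

instance DD_finite (M : ℕ) (H : Subgroup (V ≃ₗ[K] V)) [Finite H] : Finite (DD M H) := by
  have : (DD M H : Set (Set (Submodule K V))) ⊆ Dset '' (H : Set (V ≃ₗ[K] V)) := by
    rintro _ ⟨q, hq, -, -, rfl⟩
    exact ⟨q, hq, rfl⟩
  exact (Set.Finite.subset ((Set.toFinite (H : Set (V ≃ₗ[K] V))).image _) this).to_subtype

omit [FiniteDimensional K V] in
theorem card_stab_le (H : Subgroup (V ≃ₗ[K] V)) [Finite H] (E : Set (Submodule K V))
    (hE : E.Finite) :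
    Nat.card (MulAction.stabilizer H E) ≤ (E.ncard).factorial * Nat.card (Zsub H E) := by
  classical
  set S := MulAction.stabilizer H E with hS
  have hmem : ∀ (s : S) (W : Submodule K V), W ∈ E → ((s : H) : V ≃ₗ[K] V) • W ∈ E := by
    intro s W hW
    have h1 : (s : H) • E = E := s.2
    rw [← h1]
    exact ⟨W, hW, rfl⟩
  letI act : MulAction S E :=
    { smul := fun s W => ⟨((s : H) : V ≃ₗ[K] V) • (W : Submodule K V), hmem s _ W.2⟩
      one_smul := fun W => Subtype.ext (one_smul _ _)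
      mul_smul := fun s t W => Subtype.ext (mul_smul ((s : H) : V ≃ₗ[K] V) _ _) }
  have : Finite E := hE.to_subtype
  have : Finite S := inferInstance
  set ψ := MulAction.toPermHom S E with hψ
  have h1 : Nat.card ψ.ker * ψ.ker.index = Nat.card S := Subgroup.card_mul_index _
  have h2 : ψ.ker.index ≤ (E.ncard).factorial := by
    rw [Subgroup.index_ker]
    refine (Nat.card_le_card_of_injective (Subtype.val : ψ.range → Equiv.Perm E)
      Subtype.val_injective).trans ?_
    rw [Nat.card_perm, Nat.card_coe_set_eq]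
  have h3 : Nat.card ψ.ker ≤ Nat.card (Zsub H E) := by
    have hfin : Finite (Zsub H E) := by
      exact (Set.Finite.subset (Set.toFinite (H : Set (V ≃ₗ[K] V))) (Zsub_le H _)).to_subtype
    have key : ∀ s : ψ.ker, (((s : S) : H) : V ≃ₗ[K] V) ∈ Zsub H E := by
      intro s
      refine ⟨((s : S) : H).2, ?_⟩
      intro W hW
      have h4 : ψ (s : S) = 1 := s.2
      have h5 : ψ (s : S) ⟨W, hW⟩ = (⟨W, hW⟩ : E) := by rw [h4]; rfl
      exact congrArg Subtype.val h5
    refine Nat.card_le_card_of_injective (fun s : ψ.ker => (⟨_, key s⟩ : Zsub H E)) ?_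
    intro s t hst
    have := congrArg Subtype.val hst
    exact Subtype.ext (Subtype.ext (Subtype.ext this))
  calc Nat.card S = Nat.card ψ.ker * ψ.ker.index := h1.symm
    _ ≤ Nat.card (Zsub H E) * (E.ncard).factorial := by gcongr
    _ = _ := by ring

theorem card_orbits_DD [IsAlgClosed K] {M : ℕ} (hM : 2 * (finrank K V) ^ 4 ≤ M) (hM0 : 0 < M)
    (H : Subgroup (V ≃ₗ[K] V)) [Finite H] :
    Nat.card (MulAction.orbitRel.Quotient H (DD M H)) ≤
      (2 * (finrank K V).factorial) * 2 ^ 2 ^ (finrank K V) := by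
  classical
  apply card_orbits_le (X := fun E : DD M H => {x : H | (x : V ≃ₗ[K] V) ∈ Zsub H E.1 ∧
    Gen E.1 (x : V ≃ₗ[K] V)})
  · rintro ⟨E, q, hqH, hq, hqs, rfl⟩
    have h1 : Nat.card (MulAction.stabilizer H (⟨Dset q, q, hqH, hq, hqs, rfl⟩ : DD M H)) =
        Nat.card (MulAction.stabilizer H (Dset q)) := by
      congr 2
      ext h
      simp only [MulAction.mem_stabilizer_iff]
      constructor
      · intro h; exact congrArg Subtype.val h
      · intro h; exact Subtype.ext h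
    rw [h1]
    refine (card_stab_le H _ (Dset_finite q)).trans ?_
    have h2 := card_gen hM hM0 hqH hq
    have h3 : {x : V ≃ₗ[K] V | x ∈ Zsub H (Dset q) ∧ Gen (Dset q) x}.ncard =
        {x : H | (x : V ≃ₗ[K] V) ∈ Zsub H (Dset q) ∧ Gen (Dset q) (x : V ≃ₗ[K] V)}.ncard := by
      rw [← Set.ncard_image_of_injective _ (Subtype.val_injective : Function.Injective
        (Subtype.val : H → (V ≃ₗ[K] V)))]
      congr 1
      ext x
      constructor
      · rintro ⟨h1, h2⟩
        exact ⟨⟨x, h1.1⟩, ⟨h1, h2⟩, rfl⟩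
      · rintro ⟨y, hy, rfl⟩
        exact hy
    have h4 : ((Dset q).ncard).factorial ≤ (finrank K V).factorial :=
      Nat.factorial_le (Dset_ncard q)
    rw [h3] at h2
    calc ((Dset q).ncard).factorial * Nat.card (Zsub H (Dset q))
        ≤ (finrank K V).factorial * (2 * {x : H | (x : V ≃ₗ[K] V) ∈ Zsub H (Dset q) ∧
          Gen (Dset q) (x : V ≃ₗ[K] V)}.ncard) := by gcongr
      _ = _ := by ring
  · intro g
    have hfin : (Set.powerset (Tset (g : V ≃ₗ[K] V))).Finite :=
      (Tset_finite (g : V ≃ₗ[K] V)).finite_subsets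
    have h1 : {E : DD M H | g ∈ {x : H | (x : V ≃ₗ[K] V) ∈ Zsub H E.1 ∧
        Gen E.1 (x : V ≃ₗ[K] V)}}.ncard ≤ (Set.powerset (Tset (g : V ≃ₗ[K] V))).ncard := by
      apply Set.ncard_le_ncard_of_injOn (fun E => E.1) ?_ ?_ hfin
      · rintro ⟨E, q, hqH, hq, hqs, rfl⟩ hE
        exact Dset_subset_Tset hq.1 hE.1.2 hE.2
      · intro a _ b _ hab
        exact Subtype.ext hab
    refine h1.trans ?_
    rw [Set.ncard_powerset _ (Tset_finite _)]
    exact Nat.pow_le_pow_right (by norm_num) (Tset_ncard _)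

end fin

end Pool.Agent.Helper41
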