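import Mathlib
import Pool.Agent.Helper41.Lin4

/-! Reduction to invariant subspaces; finite `l`-groups of linear maps. -/

namespace Pool.Agent.Helper41

open Module Module.End
open scoped Pointwise

/-- every `p`-subgroup is generated by `R` elements -/
def PBT (p R : ℕ) (G : Type*) [Group G] : Prop := ∀ P : Subgroup G, IsPGroup p P → GenBy P R

theorem PBT.sub {p R : ℕ} {G : Type*} [Group G] (h : PBT p R G) (N : Subgroup G) : PBT p R N := by
  intro P hP
  apply GenBy.of_map N.subtype_injective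
  exact h _ (hP.map N.subtype)

theorem PBT.range {p R : ℕ} [Fact p.Prime] {G G' : Type*} [Group G] [Group G'] [Finite G]
    (h : PBT p R G) (φ : G →* G') : PBT p R φ.range := by
  intro P' hP'
  set φr := φ.rangeRestrict with hφr
  have hsurj : Function.Surjective φr := φ.rangeRestrict_surjective
  set M := P'.comap φr with hM
  set ψ := φr.subgroupComap P' with hψ
  have hψs : Function.Surjective ψ := φr.subgroupComap_surjective_of_surjective P' hsurj
  obtain ⟨S⟩ : Nonempty (Sylow p M) := inferInstance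
  have hS' : ((S.mapSurjective hψs : Sylow p P') : Subgroup P') = ⊤ := by
    have h1 : IsPGroup p (⊤ : Subgroup P') := hP'.of_injective (Subgroup.subtype ⊤)
      (Subgroup.subtype_injective _)
    exact ((S.mapSurjective hψs).is_maximal' h1 le_top).symm
  have h2 : (S : Subgroup M).map ψ = ⊤ := by
    rw [← hS']; rfl
  have h3 : GenBy ((S : Subgroup M).map M.subtype) R := h _ (S.isPGroup'.map _)
  have h4 := h3.map φr
  convert h4 using 1
  rw [Subgroup.map_map]
  have h5 : φr.comp M.subtype = P'.subtype.comp ψ := by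
    ext x; rfl
  rw [h5, ← Subgroup.map_map, h2]
  ext x
  simp

variable {K V : Type*} [Field K] [AddCommGroup V] [Module K V]

/-- restriction to an invariant subspace -/
def resMap (H : Subgroup (V ≃ₗ[K] V)) (W : Submodule K V) (hW : ∀ h ∈ H, h • W = W) :
    H →* (W ≃ₗ[K] W) where
  toFun h := LinearEquiv.ofSubmodules (h : V ≃ₗ[K] V) W W (hW h h.2)
  map_one' := by ext; rfl
  map_mul' a b := by ext; rfl

@[simp] theorem resMap_apply (H : Subgroup (V ≃ₗ[K] V)) (W : Submodule K V)
    (hW : ∀ h ∈ H, h • W = W) (h : H) (w : W) :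
    ((resMap H W hW h w : W) : V) = (h : V ≃ₗ[K] V) w := rfl

theorem genBy_of_sup {H : Subgroup (V ≃ₗ[K] V)} {W W' : Submodule K V}
    (hW : ∀ h ∈ H, h • W = W) (hW' : ∀ h ∈ H, h • W' = W') (hsup : W ⊔ W' = ⊤) {a b : ℕ}
    (h1 : GenBy (resMap H W hW).range a)
    (h2 : ∀ N : Subgroup H, GenBy (N.map (resMap H W' hW')) b) : GenBy H (a + b) := by
  rw [← genBy_top_iff]
  refine GenBy.ext (resMap H W hW) (by rwa [← MonoidHom.range_eq_map]) ?_
  rw [top_inf_eq]
  set N := (resMap H W hW).ker with hN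
  have h3 := h2 N
  rw [← genBy_top_iff]
  have hinj : Function.Injective ((resMap H W' hW').comp N.subtype) := by
    rw [injective_iff_map_eq_one]
    intro n hn
    have hn1 : ∀ w ∈ W, ((n : H) : V ≃ₗ[K] V) w = w := by
      intro w hw
      have h4 : resMap H W hW (n : H) = 1 := n.2
      have h5 := congrArg (fun f => ((f ⟨w, hw⟩ : W) : V)) h4
      simpa using h5
    have hn2 : ∀ w ∈ W', ((n : H) : V ≃ₗ[K] V) w = w := by
      intro w hw
      have h5 := congrArg (fun f => ((f ⟨w, hw⟩ : W') : V)) hn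
      simpa using h5
    apply Subtype.ext
    apply Subtype.ext
    ext v
    have hv : v ∈ W ⊔ W' := by rw [hsup]; trivial
    obtain ⟨w, hw, w', hw', rfl⟩ := Submodule.mem_sup.1 hv
    change ((n : H) : V ≃ₗ[K] V) (w + w') = w + w'
    rw [map_add, hn1 w hw, hn2 w' hw']
  apply GenBy.of_map hinj
  rwa [← Subgroup.map_map, ← MonoidHom.range_eq_map, Subgroup.range_subtype]

section fin

variable [FiniteDimensional K V]

/-- A diagonalizable nonscalar element splits the space. -/
theorem exists_split {q : V ≃ₗ[K] V} (hq : Diag q) (hs : ¬ IsSc q) :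
    ∃ W W' : Submodule K V, finrank K W < finrank K V ∧ finrank K W' < finrank K V ∧
      finrank K W + finrank K W' = finrank K V ∧ W ⊔ W' = ⊤ ∧
      (∀ h : V ≃ₗ[K] V, h * q = q * h → h • W = W ∧ h • W' = W') := by
  have hex : ∃ μ, eig q μ ≠ ⊥ := by
    by_contra hcon
    push Not at hcon
    have h1 : (⊤ : Submodule K V) = ⊥ := by
      rw [← hq, eq_bot_iff]; exact iSup_le fun μ => (hcon μ).le
    apply hs
    refine ⟨0, fun v => ?_⟩
    have hv : v ∈ (⊤ : Submodule K V) := trivial
    rw [h1] at hv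
    have : v = 0 := by simpa using hv
    rw [this]; simp
  obtain ⟨μ, hμ⟩ := hex
  set W := eig q μ with hW
  set W' : Submodule K V := ⨆ ν ∈ {ν | ν ≠ μ}, eig q ν with hW'
  have hsup : W ⊔ W' = ⊤ := by
    rw [eq_top_iff, ← hq]
    refine iSup_le fun ν => ?_
    by_cases h : ν = μ
    · rw [h]; exact le_sup_left
    · exact le_sup_of_le_right (le_iSup₂_of_le ν h le_rfl)
  have hdis : Disjoint W W' := by
    have h1 := eigenspaces_iSupIndep (q.toLinearMap : End K V) μ
    exact h1
  have hWtop : W ≠ ⊤ := by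
    intro h
    apply hs
    refine ⟨μ, fun v => ?_⟩
    have : v ∈ W := by rw [h]; trivial
    exact mem_eig.1 this
  have hW'top : W' ≠ ⊤ := by
    intro h
    rw [h, disjoint_top] at hdis
    exact hμ hdis
  refine ⟨W, W', Submodule.finrank_lt hWtop,
    Submodule.finrank_lt hW'top, ?_, hsup, ?_⟩
  · have := Submodule.finrank_sup_add_finrank_inf_eq W W'
    rw [hsup, hdis.eq_bot, finrank_top, finrank_bot, add_zero] at this
    exact this.symm
  · intro h hc
    refine ⟨smul_of_commute hc μ, ?_⟩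
    rw [smul_sub_def, hW']
    simp only [Submodule.map_iSup]
    congr 1
    ext ν : 1
    congr 1
    ext _ : 1
    exact smul_of_commute hc ν

end fin

theorem genBy_scalars [Nontrivial V] {H : Subgroup (V ≃ₗ[K] V)} [Finite H]
    (hs : ∀ h ∈ H, IsSc h) : GenBy H 1 := by
  obtain ⟨v, hv⟩ := exists_ne (0 : V)
  choose! c hc using hs
  have hone : c 1 = 1 := by
    have := hc 1 H.one_mem v
    change v = c 1 • v at this
    have h2 : (c 1 - 1) • v = 0 := by rw [sub_smul, one_smul, ← this, sub_self]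
    rcases smul_eq_zero.1 h2 with h | h
    · exact sub_eq_zero.1 h
    · exact absurd h hv
  have hmul : ∀ a ∈ H, ∀ b ∈ H, c (a * b) = c a * c b := by
    intro a ha b hb
    have h1 : (a * b) v = c (a * b) • v := hc _ (H.mul_mem ha hb) v
    change a (b v) = _ at h1
    rw [hc b hb, map_smul, hc a ha, smul_smul] at h1
    have h2 : (c (a * b) - c a * c b) • v = 0 := by
      rw [sub_smul, ← h1, mul_comm (c a), sub_self]
    rcases smul_eq_zero.1 h2 with h | h
    · exact sub_eq_zero.1 h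
    · exact absurd h hv
  let χ : H →* K :=
    { toFun := fun h => c h
      map_one' := hone
      map_mul' := fun a b => hmul a a.2 b b.2 }
  have hinj : Function.Injective χ := by
    intro a b hab
    apply Subtype.ext
    ext w
    have h1 : c a = c b := hab
    rw [hc a a.2, hc b b.2, h1]
  have hcyc : IsCyclic H := isCyclic_of_injective_ringHom χ hinj
  obtain ⟨g, hg⟩ := hcyc.exists_generator
  rw [← genBy_top_iff]
  have : (⊤ : Subgroup H) = Subgroup.zpowers g := by
    symm; rw [eq_top_iff]; intro x _; exact hg x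
  rw [this]
  exact genBy_zpowers g

theorem IsSc.comm {g : V ≃ₗ[K] V} (hg : IsSc g) (h : V ≃ₗ[K] V) : g * h = h * g := by
  obtain ⟨c, hc⟩ := hg
  ext v
  change g (h v) = h (g v)
  rw [hc, hc, map_smul]

/-- Structure of a finite `l`-group of linear maps. -/
theorem trichotomy {l : ℕ} [Fact l.Prime] (Q : Subgroup (V ≃ₗ[K] V)) [Finite Q]
    (hQ : IsPGroup l Q) :
    (∀ g ∈ Q, IsSc g) ∨ (∃ q ∈ Q, ¬ IsSc q ∧ ∀ g ∈ Q, g * q = q * g) ∨
      (∃ x ∈ Q, ¬ IsSc x ∧ (∃ y ∈ Q, x * y ≠ y * x) ∧
        (∀ y ∈ Q, IsSc (x * y * x⁻¹ * y⁻¹))) := by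
  by_cases h1 : ∀ g ∈ Q, IsSc g
  · exact Or.inl h1
  right
  by_cases h2 : ∃ q ∈ Q, ¬ IsSc q ∧ ∀ g ∈ Q, g * q = q * g
  · exact Or.inl h2
  right
  push Not at h1 h2
  obtain ⟨g0, hg0, hg0s⟩ := h1
  have hcen : ∀ z : Q, z ∈ Subgroup.center Q → IsSc (z : V ≃ₗ[K] V) := by
    intro z hz
    by_contra hcon
    obtain ⟨g, hg, hne⟩ := h2 z z.2 hcon
    rw [Subgroup.mem_center_iff] at hz
    exact hne (congrArg Subtype.val (hz ⟨g, hg⟩))
  have hne : (⟨g0, hg0⟩ : Q) ∉ Subgroup.center Q := fun h => hg0s (hcen _ h)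
  have hnt : Nontrivial (Q ⧸ Subgroup.center Q) := by
    refine ⟨⟨((⟨g0, hg0⟩ : Q) : Q ⧸ Subgroup.center Q), 1, ?_⟩⟩
    intro h
    exact hne ((QuotientGroup.eq_one_iff _).1 h)
  have hP : IsPGroup l (Q ⧸ Subgroup.center Q) := hQ.to_quotient _
  have hcn : Nontrivial (Subgroup.center (Q ⧸ Subgroup.center Q)) := hP.center_nontrivial
  obtain ⟨⟨z, hz⟩, hz1⟩ := exists_ne (1 : Subgroup.center (Q ⧸ Subgroup.center Q))
  obtain ⟨x, rfl⟩ := QuotientGroup.mk_surjective z
  have hx : x ∉ Subgroup.center Q := by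
    intro h
    apply hz1
    apply Subtype.ext
    exact (QuotientGroup.eq_one_iff _).2 h
  rw [Subgroup.mem_center_iff] at hx
  push Not at hx
  obtain ⟨y, hy⟩ := hx
  refine ⟨x, x.2, ?_, ⟨y, y.2, ?_⟩, ?_⟩
  · intro hxs
    apply hy
    apply Subtype.ext
    exact (hxs.comm _).symm
  · intro h
    apply hy
    apply Subtype.ext
    exact h.symm
  · intro w hw
    have h3 := (Subgroup.mem_center_iff.1 hz) (QuotientGroup.mk (⟨w, hw⟩ : Q))
    have h4 : x * ⟨w, hw⟩ * x⁻¹ * (⟨w, hw⟩ : Q)⁻¹ ∈ Subgroup.center Q := by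
      rw [← QuotientGroup.eq_one_iff]
      simp only [QuotientGroup.mk_mul, QuotientGroup.mk_inv]
      rw [← h3]; group
    exact hcen _ h4

end Pool.Agent.Helper41
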