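import Mathlib
import Pool.Agent.Helper41.Lin5

/-! Bounded generation of finite linear groups. -/

namespace Pool.Agent.Helper41

open Module Module.End
open scoped Pointwise

universe u v

theorem finite_map {G G' : Type*} [Group G] [Group G'] [Finite G] (φ : G →* G')
    (M : Subgroup G) : Finite (M.map φ) :=
  (Set.Finite.image φ (Set.toFinite (M : Set G))).to_subtype

theorem finite_range {G G' : Type*} [Group G] [Group G'] [Finite G] (φ : G →* G') :
    Finite φ.range := Finite.of_surjective φ.rangeRestrict φ.rangeRestrict_surjective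

/-- `l`-subgroups in characteristic different from `l`. -/
theorem genBy_pgroup {K : Type u} [Field K] [IsAlgClosed K] {l : ℕ} [hl : Fact l.Prime]
    (hlK : (l : K) ≠ 0) (n : ℕ) :
    ∀ (V : Type v) [AddCommGroup V] [Module K V] [FiniteDimensional K V], finrank K V = n →
      ∀ (Q : Subgroup (V ≃ₗ[K] V)) [Finite Q], IsPGroup l Q → GenBy Q (2 * n - 1) := by
  induction n using Nat.strong_induction_on with
  | _ n ih =>
    intro V _ _ _ hV Q _ hQ
    rcases Nat.eq_zero_or_pos n with h0 | hpos
    · have hsub : Subsingleton V := by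
        rw [h0] at hV
        exact finrank_zero_iff.1 hV
      have : Q = ⊥ := by
        rw [eq_bot_iff]
        intro g _
        rw [Subgroup.mem_bot]
        ext v
        exact Subsingleton.elim _ _
      rw [this]; exact genBy_bot _
    have hnt : Nontrivial V := by
      apply Module.nontrivial_of_finrank_pos (R := K); omega
    have hdiag : ∀ g ∈ Q, Diag g := by
      intro g hg
      obtain ⟨k, hk⟩ := hQ ⟨g, hg⟩
      have hk' : g ^ l ^ k = 1 := congrArg Subtype.val hk
      refine diag_of_pow (n := l ^ k) ?_ hk'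
      push_cast
      exact pow_ne_zero _ hlK
    -- the inductive step for a subgroup centralizing a nonscalar element
    have step : ∀ (N : Subgroup (V ≃ₗ[K] V)) (q : V ≃ₗ[K] V), N ≤ Q → q ∈ Q → ¬ IsSc q →
        (∀ g ∈ N, g * q = q * g) → ∃ a b, a + b + 2 ≤ 2 * n ∧ GenBy N (a + b) := by
      intro N q hNQ hq hqs hc
      obtain ⟨W, W', h1, h2, h3, h4, h5⟩ := exists_split (hdiag q hq) hqs
      have hNfin : Finite N :=
        (Set.Finite.subset (Set.toFinite (Q : Set (V ≃ₗ[K] V))) hNQ).to_subtype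
      have hNp : IsPGroup l N := hQ.to_le hNQ
      have hW : ∀ h ∈ N, h • W = W := fun h hh => (h5 h (hc h hh)).1
      have hW' : ∀ h ∈ N, h • W' = W' := fun h hh => (h5 h (hc h hh)).2
      have hWpos : 0 < finrank K W := by omega
      have hWpos' : 0 < finrank K W' := by omega
      refine ⟨2 * finrank K W - 1, 2 * finrank K W' - 1, by omega, ?_⟩
      apply genBy_of_sup hW hW' h4
      · have := finite_range (resMap N W hW)
        exact ih (finrank K W) (by omega) W rfl _ (hNp.of_surjective _
          (resMap N W hW).rangeRestrict_surjective)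
      · intro M
        have hMf : Finite (M.map (resMap N W' hW')) := finite_map _ _
        exact ih (finrank K W') (by omega) W' rfl _ ((hNp.to_subgroup M).map _)
    rcases trichotomy Q hQ with h | ⟨q, hq, hqs, hc⟩ | ⟨x, hx, hxs, -, hc⟩
    · exact (genBy_scalars h).mono (by omega)
    · obtain ⟨a, b, hab, h⟩ := step Q q le_rfl hq hqs hc
      exact h.mono (by omega)
    · -- the map `y ↦ [x, y]`
      let N : Subgroup (V ≃ₗ[K] V) := Q ⊓ Subgroup.centralizer {x}
      obtain ⟨a, b, hab, hN⟩ := step N x inf_le_left hx hxs (by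
        intro g hg
        have := (Subgroup.mem_centralizer_singleton_iff.1 hg.2)
        exact this)
      let δ : Q →* (V ≃ₗ[K] V) :=
        { toFun := fun y => x * y * x⁻¹ * (y : V ≃ₗ[K] V)⁻¹
          map_one' := by simp
          map_mul' := by
            intro y z
            have h1 := (hc z z.2).comm (y : V ≃ₗ[K] V)
            have h2 : x * ((y * z : Q) : V ≃ₗ[K] V) * x⁻¹ * (((y * z : Q) : V ≃ₗ[K] V))⁻¹ =
                x * y * x⁻¹ * ((x * z * x⁻¹ * (z : V ≃ₗ[K] V)⁻¹) * (y : V ≃ₗ[K] V)⁻¹) := by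
              rw [Subgroup.coe_mul]; group
            rw [h2, (hc z z.2).comm ((y : V ≃ₗ[K] V)⁻¹)]
            group }
      have hker : Q ⊓ Subgroup.centralizer {x} = (δ.ker).map Q.subtype := by
        ext y
        constructor
        · rintro ⟨hy1, hy2⟩
          refine ⟨⟨y, hy1⟩, ?_, rfl⟩
          change x * y * x⁻¹ * y⁻¹ = 1
          have h1 := (Subgroup.mem_centralizer_singleton_iff.1 hy2)
          rw [← h1]; group
        · rintro ⟨z, hz, rfl⟩
          refine ⟨z.2, ?_⟩
          change (z : V ≃ₗ[K] V) ∈ Subgroup.centralizer {x}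
          rw [Subgroup.mem_centralizer_singleton_iff]
          have h1 : x * (z : V ≃ₗ[K] V) * x⁻¹ * (z : V ≃ₗ[K] V)⁻¹ = 1 := hz
          have h2 : x * (z : V ≃ₗ[K] V) * x⁻¹ = z := by
            rwa [mul_inv_eq_one] at h1
          change (z : V ≃ₗ[K] V) * x = x * z
          conv_lhs => rw [← h2]
          group
      have h1 : GenBy δ.ker (a + b) := by
        apply GenBy.of_map Q.subtype_injective
        rw [← hker]; exact hN
      have h2 : GenBy ((⊤ : Subgroup Q).map δ) 1 := by
        have hfin : Finite ((⊤ : Subgroup Q).map δ) := finite_map _ _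
        apply genBy_scalars
        rintro _ ⟨y, -, rfl⟩
        exact hc y y.2
      rw [← genBy_top_iff]
      have h3 := GenBy.ext δ h2 (l := a + b) (by rwa [top_inf_eq])
      exact h3.mono (by omega)

/-- The main statement, for fixed dimension. -/
def MainB (R r C : ℕ) : Prop :=
  ∀ (p : ℕ) [Fact p.Prime] (K : Type u) [Field K] [IsAlgClosed K] [CharP K p]
    (V : Type v) [AddCommGroup V] [Module K V] [FiniteDimensional K V], finrank K V ≤ r →
    ∀ (H : Subgroup (V ≃ₗ[K] V)) [Finite H], PBT p R H → GenBy H C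

theorem good_of_pow {K : Type u} [Field K] [IsAlgClosed K] {V : Type v} [AddCommGroup V]
    [Module K V] [FiniteDimensional K V] {l : ℕ} (hl : l.Prime)
    (hlK : (l : K) ≠ 0) {M k : ℕ} (hM : M ≤ l) {g : V ≃ₗ[K] V} (hg : g ^ l ^ k = 1) :
    Good M g := by
  refine ⟨diag_of_pow (n := l ^ k) (by push_cast; exact pow_ne_zero _ hlK) hg, ?_⟩
  have key : ∀ μ ∈ specS g, μ ^ l ^ k = 1 := by
    intro μ hμ
    obtain ⟨v, hv, hv0⟩ := Submodule.exists_mem_ne_zero_of_ne_bot hμ
    have h1 := pow_apply_of_mem hv (l ^ k)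
    rw [hg] at h1
    change v = _ at h1
    have h2 : (μ ^ l ^ k - 1) • v = 0 := by rw [sub_smul, one_smul, ← h1, sub_self]
    rcases smul_eq_zero.1 h2 with h | h
    · exact sub_eq_zero.1 h
    · exact absurd h hv0
  intro μ hμ ν hν hne i hi hiM he
  have hν0 := ne_zero_of_mem_specS hν
  have h1 : (μ / ν) ^ i = 1 := by rw [div_pow, he, div_self (pow_ne_zero _ hν0)]
  have h2 : (μ / ν) ^ l ^ k = 1 := by rw [div_pow, key μ hμ, key ν hν, div_one]
  have h3 : Nat.Coprime i (l ^ k) := by
    apply Nat.Coprime.pow_right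
    apply Nat.Coprime.symm
    rw [Nat.Prime.coprime_iff_not_dvd hl]
    intro hd
    exact absurd (Nat.le_of_dvd hi hd) (by omega)
  have h4 : orderOf (μ / ν) ∣ Nat.gcd i (l ^ k) :=
    Nat.dvd_gcd (orderOf_dvd_of_pow_eq_one h1) (orderOf_dvd_of_pow_eq_one h2)
  rw [h3] at h4
  have h5 : orderOf (μ / ν) = 1 := Nat.dvd_one.1 h4
  have h6 : μ / ν = 1 := orderOf_eq_one_iff.1 h5
  exact hne ((div_eq_one_iff_eq hν0).1 h6)

theorem commutator_scalar {K : Type u} [Field K] {V : Type v} [AddCommGroup V]
    [Module K V] [FiniteDimensional K V] {l : ℕ} (hl : l.Prime) (hV : finrank K V < l)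
    (hV0 : 0 < finrank K V)
    {x y : V ≃ₗ[K] V} {k : ℕ} (hs : IsSc (x * y * x⁻¹ * y⁻¹))
    (hk : (x * y * x⁻¹ * y⁻¹) ^ l ^ k = 1) : x * y = y * x := by
  have hnt : Nontrivial V := Module.nontrivial_of_finrank_pos (R := K) hV0
  obtain ⟨v, hv0⟩ := exists_ne (0 : V)
  obtain ⟨c, hc⟩ := hs
  set g := x * y * x⁻¹ * y⁻¹ with hg
  have hc0 : c ≠ 0 := by
    rintro rfl
    have := hc v
    rw [zero_smul] at this
    exact hv0 (by simpa using this)
  have h1 : c ^ l ^ k = 1 := by
    have hmem : v ∈ eig g c := mem_eig.2 (hc v)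
    have h1 := pow_apply_of_mem hmem (l ^ k)
    rw [hk] at h1
    change v = _ at h1
    have h2 : (c ^ l ^ k - 1) • v = 0 := by rw [sub_smul, one_smul, ← h1, sub_self]
    rcases smul_eq_zero.1 h2 with h | h
    · exact sub_eq_zero.1 h
    · exact absurd h hv0
  have h2 : c ^ finrank K V = 1 := by
    have hd : LinearEquiv.det g = 1 := by
      rw [hg]
      simp only [map_mul, map_inv]
      rw [mul_comm (LinearEquiv.det x)]
      group
    have hd' : LinearMap.det (g.toLinearMap) = 1 := by
      rw [← LinearEquiv.coe_det, hd]; rfl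
    have hgc : g.toLinearMap = c • LinearMap.id := by
      ext v; exact hc v
    rw [hgc, LinearMap.det_smul, LinearMap.det_id, mul_one] at hd'
    exact hd'
  have h3 : Nat.Coprime (finrank K V) (l ^ k) := by
    apply Nat.Coprime.pow_right
    apply Nat.Coprime.symm
    rw [Nat.Prime.coprime_iff_not_dvd hl]
    intro hd
    exact absurd (Nat.le_of_dvd hV0 hd) (by omega)
  have h4 : orderOf c ∣ Nat.gcd (finrank K V) (l ^ k) :=
    Nat.dvd_gcd (orderOf_dvd_of_pow_eq_one h2) (orderOf_dvd_of_pow_eq_one h1)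
  rw [h3] at h4
  have h5 : orderOf c = 1 := Nat.dvd_one.1 h4
  have h6 : c = 1 := orderOf_eq_one_iff.1 h5
  have h7 : g = 1 := by
    ext v
    change g v = v
    rw [hc, h6, one_smul]
  rw [hg] at h7
  have h8 : x * y * x⁻¹ = y := by rwa [mul_inv_eq_one] at h7
  calc x * y = x * y * x⁻¹ * x := by group
    _ = y * x := by rw [h8]

end Pool.Agent.Helper41
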