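import Mathlib
import Pool.Agent.Helper41.Lin6

/-! Bounded generation of finite linear groups: the main theorem. -/

namespace Pool.Agent.Helper41

open Module Module.End
open scoped Pointwise

universe u v

theorem PBT.of_le {p R : ℕ} {G : Type*} [Group G] {H N : Subgroup G} (hNH : N ≤ H)
    (h : PBT p R H) : PBT p R N := by
  intro P hP
  apply GenBy.of_map N.subtype_injective
  have h1 : P.map N.subtype ≤ H := (Subgroup.map_subtype_le P).trans hNH
  rw [← GenBy.subgroupOf h1]
  apply h
  have h2 : IsPGroup p (P.map N.subtype) := hP.map _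
  exact h2.comap_subtype

/-- the scalars in `H` -/
def ScSub {K V : Type*} [Field K] [AddCommGroup V] [Module K V] (H : Subgroup (V ≃ₗ[K] V)) :
    Subgroup (V ≃ₗ[K] V) where
  carrier := {h | h ∈ H ∧ IsSc h}
  mul_mem' := by
    rintro a b ⟨ha, c, hc⟩ ⟨hb, d, hd⟩
    refine ⟨H.mul_mem ha hb, c * d, fun v => ?_⟩
    change a (b v) = _
    rw [hd, map_smul, hc, smul_smul, mul_comm]
  one_mem' := ⟨H.one_mem, 1, fun v => by simp⟩
  inv_mem' := by
    rintro a ⟨ha, c, hc⟩
    refine ⟨H.inv_mem ha, c⁻¹, fun v => ?_⟩
    by_cases hc0 : c = 0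
    · have hv : v = 0 := by
        have := hc v
        rw [hc0, zero_smul] at this
        simpa using this
      rw [hv]; simp
    · have h1 : a (a⁻¹ v) = v := by
        change (a * a⁻¹) v = v
        rw [mul_inv_cancel]; rfl
      rw [hc] at h1
      change a⁻¹ v = c⁻¹ • v
      conv_rhs => rw [← h1]
      rw [smul_smul, inv_mul_cancel₀ hc0, one_smul]

theorem exists_MainB (R r : ℕ) : ∃ C, MainB.{u, v} R r C := by
  classical
  induction r with
  | zero =>
    refine ⟨0, ?_⟩
    intro p _ K _ _ _ V _ _ _ hV H _ _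
    have hsub : Subsingleton V := finrank_zero_iff.1 (Nat.le_zero.1 hV)
    have : H = ⊥ := by
      rw [eq_bot_iff]
      intro g _
      rw [Subgroup.mem_bot]
      ext v
      exact Subsingleton.elim _ _
    rw [this]; exact genBy_bot _
  | succ r ih =>
    obtain ⟨C, hC⟩ := ih
    set M : ℕ := 2 * (r + 1) ^ 4 + (r + 1) + 1 with hMdef
    refine ⟨(2 * (r + 1).factorial) * 2 ^ 2 ^ (r + 1) * (C + C) + 1 + M * (2 * (r + 1)) + R, ?_⟩
    intro p hp K _ _ _ V _ _ _ hV H _ hPB
    rcases Nat.eq_zero_or_pos (finrank K V) with h0 | hpos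
    · have hsub : Subsingleton V := finrank_zero_iff.1 h0
      have : H = ⊥ := by
        rw [eq_bot_iff]
        intro g _
        rw [Subgroup.mem_bot]
        ext v
        exact Subsingleton.elim _ _
      rw [this]; exact genBy_bot _
    have hnt : Nontrivial V := Module.nontrivial_of_finrank_pos (R := K) hpos
    have hM1 : 2 * (finrank K V) ^ 4 ≤ M := by
      have : (finrank K V) ^ 4 ≤ (r + 1) ^ 4 := Nat.pow_le_pow_left hV 4
      omega
    have hM0 : 0 < M := by omega
    have hMr : finrank K V < M := by omega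
    -- Sylow subgroups
    have hsyl : ∀ l : ℕ, l.Prime → ∃ Q : Subgroup (V ≃ₗ[K] V), Q ≤ H ∧ IsPGroup l Q ∧
        Nat.card Q = l ^ (Nat.card H).factorization l := by
      intro l hl
      have : Fact l.Prime := ⟨hl⟩
      obtain ⟨S⟩ : Nonempty (Sylow l H) := inferInstance
      refine ⟨(S : Subgroup H).map H.subtype, Subgroup.map_subtype_le _, S.isPGroup'.map _, ?_⟩
      rw [← S.card_eq_multiplicity]
      exact (Nat.card_congr ((S : Subgroup H).equivMapOfInjective _
        H.subtype_injective).toEquiv).symm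
    choose! syl hsyl1 hsyl2 hsyl3 using hsyl
    -- orbits of decompositions
    set O := MulAction.orbitRel.Quotient H (DD M H) with hO
    have hOfin : Finite O := Quotient.finite _
    have hOft : Fintype O := Fintype.ofFinite O
    have hOcard : (Finset.univ : Finset O).card ≤
        (2 * (r + 1).factorial) * 2 ^ 2 ^ (r + 1) := by
      have h1 := card_orbits_DD hM1 hM0 H
      rw [Finset.card_univ, ← Nat.card_eq_fintype_card]
      refine h1.trans ?_
      gcongr
      · norm_num
      · norm_num
    set A : Subgroup (V ≃ₗ[K] V) :=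
      Finset.univ.sup (fun o : O => Zsub H (Quotient.out o : DD M H).1) with hA
    have hAgen : GenBy A ((2 * (r + 1).factorial) * 2 ^ 2 ^ (r + 1) * (C + C)) := by
      have h1 : GenBy A ((Finset.univ : Finset O).card * (C + C)) := by
        apply GenBy.finset_sup
        intro o _
        obtain ⟨q, hq, hqg, hqs, hqE⟩ := (Quotient.out o : DD M H).2
        rw [hqE]
        obtain ⟨W, W', h1, h2, h3, h4, h5⟩ := exists_split hqg.1 hqs
        have hW : ∀ h ∈ Zsub H (Dset q), h • W = W :=
          fun h hh => (h5 h (commute_of_smul hqg.1 hh.2)).1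
        have hW' : ∀ h ∈ Zsub H (Dset q), h • W' = W' :=
          fun h hh => (h5 h (commute_of_smul hqg.1 hh.2)).2
        have hZfin : Finite (Zsub H (Dset q)) :=
          (Set.Finite.subset (Set.toFinite (H : Set (V ≃ₗ[K] V))) (Zsub_le H _)).to_subtype
        have hZPB : PBT p R (Zsub H (Dset q)) := hPB.of_le (Zsub_le H _)
        apply genBy_of_sup hW hW' h4
        · have := finite_range (resMap _ W hW)
          exact hC p K W (by omega) _ (hZPB.range _)
        · intro N
          have := finite_map (resMap _ W' hW') N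
          refine hC p K W' (by omega) _ ?_
          have h6 := (hZPB.sub N).range ((resMap _ W' hW').comp N.subtype)
          rwa [MonoidHom.range_comp, Subgroup.range_subtype] at h6
      exact h1.mono (Nat.mul_le_mul_right _ hOcard)
    have hScgen : GenBy (ScSub H) 1 := by
      have : Finite (ScSub H) :=
        (Set.Finite.subset (Set.toFinite (H : Set (V ≃ₗ[K] V))) (fun x hx => hx.1)).to_subtype
      exact genBy_scalars fun h hh => hh.2
    set B : Subgroup (V ≃ₗ[K] V) :=
      (Finset.range M).sup (fun l => if l.Prime ∧ l ≠ p then syl l else ⊥) with hB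
    have hcast : ∀ l : ℕ, l.Prime → l ≠ p → (l : K) ≠ 0 := by
      intro l hl hlp h
      rw [CharP.cast_eq_zero_iff K p] at h
      exact hlp ((Nat.prime_dvd_prime_iff_eq hp.out hl).1 h).symm
    have hsylfin : ∀ l : ℕ, l.Prime → Finite (syl l) := fun l hl =>
      (Set.Finite.subset (Set.toFinite (H : Set (V ≃ₗ[K] V))) (hsyl1 l hl)).to_subtype
    have hBgen : GenBy B (M * (2 * (r + 1))) := by
      have h1 : GenBy B ((Finset.range M).card * (2 * (r + 1))) := by
        apply GenBy.finset_sup
        intro l _
        split_ifs with h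
        · have : Fact l.Prime := ⟨h.1⟩
          have := hsylfin l h.1
          exact (genBy_pgroup (hcast l h.1 h.2) (finrank K V) V rfl (syl l)
            (hsyl2 l h.1)).mono (by omega)
        · exact genBy_bot _
      rwa [Finset.card_range] at h1
    have hPgen : GenBy (syl p) R := by
      have h1 := hPB ((syl p).subgroupOf H) ?_
      · rwa [GenBy.subgroupOf (hsyl1 p hp.out)] at h1
      · have h2 := hsyl2 p hp.out
        exact h2.comap_subtype
    set H0 := A ⊔ ScSub H ⊔ B ⊔ syl p with hH0
    have hgen : GenBy H0 ((2 * (r + 1).factorial) * 2 ^ 2 ^ (r + 1) * (C + C) + 1 +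
        M * (2 * (r + 1)) + R) := ((hAgen.sup hScgen).sup hBgen).sup hPgen
    have hle : H0 ≤ H := by
      refine sup_le (sup_le (sup_le ?_ (fun x hx => hx.1)) ?_) (hsyl1 p hp.out)
      · exact Finset.sup_le fun o _ => Zsub_le H _
      · refine Finset.sup_le fun l _ => ?_
        split_ifs with h
        · exact hsyl1 l h.1
        · exact bot_le
    have hH0fin : Finite H0 :=
      (Set.Finite.subset (Set.toFinite (H : Set (V ≃ₗ[K] V))) hle).to_subtype
    -- every Sylow subgroup of `H` has a conjugate in `H0`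
    have key : ∀ l : ℕ, l.Prime → ∃ Q : Subgroup (V ≃ₗ[K] V), Q ≤ H0 ∧
        Nat.card Q = l ^ (Nat.card H).factorization l := by
      intro l hl
      have : Fact l.Prime := ⟨hl⟩
      by_cases hlp : l = p
      · subst hlp
        exact ⟨syl l, le_sup_right, hsyl3 l hl⟩
      by_cases hlM : l < M
      · refine ⟨syl l, ?_, hsyl3 l hl⟩
        have h1 : syl l ≤ B := by
          have h2 := Finset.le_sup (f := fun l => if l.Prime ∧ l ≠ p then syl l else ⊥)
            (Finset.mem_range.2 hlM)
          rwa [if_pos ⟨hl, hlp⟩] at h2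
        exact h1.trans (le_sup_right.trans le_sup_left)
      push Not at hlM
      have := hsylfin l hl
      rcases trichotomy (syl l) (hsyl2 l hl) with h | ⟨q, hq, hqs, hc⟩ | ⟨x, hx, hxs, ⟨y, hy, hxy⟩, hc⟩
      · refine ⟨syl l, ?_, hsyl3 l hl⟩
        have h1 : syl l ≤ ScSub H := fun g hg => ⟨hsyl1 l hl hg, h g hg⟩
        exact h1.trans (le_sup_right.trans (le_sup_left.trans le_sup_left))
      · obtain ⟨k, hk⟩ := hsyl2 l hl ⟨q, hq⟩
        have hk' : q ^ l ^ k = 1 := congrArg Subtype.val hk
        have hgood : Good M q := good_of_pow hl (hcast l hl hlp) hlM hk'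
        let E : DD M H := ⟨Dset q, q, hsyl1 l hl hq, hgood, hqs, rfl⟩
        let o : O := Quotient.mk _ E
        have ho : (Quotient.out o : DD M H) ∈ MulAction.orbit H E := by
          have h1 := Quotient.exact (Quotient.out_eq o)
          exact h1
        obtain ⟨g, hg⟩ := ho
        have hgE : (Quotient.out o : DD M H).1 = (g : V ≃ₗ[K] V) • Dset q := by
          rw [← hg]; rfl
        refine ⟨(syl l).map (MulAut.conj (g : V ≃ₗ[K] V)).toMonoidHom, ?_, ?_⟩
        · have h1 : (syl l).map (MulAut.conj (g : V ≃ₗ[K] V)).toMonoidHom ≤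
              Zsub H (Quotient.out o : DD M H).1 := by
            rintro _ ⟨s, hs, rfl⟩
            refine ⟨H.mul_mem (H.mul_mem g.2 (hsyl1 l hl hs)) (H.inv_mem g.2), ?_⟩
            rw [hgE]
            rintro _ ⟨W, hW, rfl⟩
            have h2 := smul_Dset_of_commute (hc s hs) W hW
            change ((g : V ≃ₗ[K] V) * s * (g : V ≃ₗ[K] V)⁻¹) • ((g : V ≃ₗ[K] V) • W) =
              (g : V ≃ₗ[K] V) • W
            rw [smul_smul, inv_mul_cancel_right, mul_smul, h2]
          have h3 : Zsub H (Quotient.out o : DD M H).1 ≤ A :=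
            Finset.le_sup (f := fun o : O => Zsub H (Quotient.out o : DD M H).1)
              (Finset.mem_univ o)
          exact (h1.trans h3).trans (le_sup_left.trans (le_sup_left.trans le_sup_left))
        · rw [← hsyl3 l hl]
          exact (Nat.card_congr ((syl l).equivMapOfInjective _
            (MulAut.conj (g : V ≃ₗ[K] V)).injective).toEquiv).symm
      · exfalso
        apply hxy
        have hmem : x * y * x⁻¹ * y⁻¹ ∈ syl l :=
          (syl l).mul_mem ((syl l).mul_mem ((syl l).mul_mem hx hy) ((syl l).inv_mem hx))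
            ((syl l).inv_mem hy)
        obtain ⟨k, hk⟩ := hsyl2 l hl ⟨_, hmem⟩
        have hk' : (x * y * x⁻¹ * y⁻¹) ^ l ^ k = 1 := congrArg Subtype.val hk
        exact commutator_scalar hl (by omega) hpos (hc y hy) hk'
    have hdvd : Nat.card H ∣ Nat.card H0 := by
      have hH : Nat.card H ≠ 0 := Nat.card_pos.ne'
      have hH0' : Nat.card H0 ≠ 0 := Nat.card_pos.ne'
      rw [← Nat.factorization_prime_le_iff_dvd hH hH0']
      intro l hl
      obtain ⟨Q, hQ, hQc⟩ := key l hl
      rw [← hl.pow_dvd_iff_le_factorization hH0', ← hQc]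
      exact Subgroup.card_dvd_of_le hQ
    have heq : H0 = H := Subgroup.eq_of_le_of_card_ge hle (Nat.le_of_dvd Nat.card_pos hdvd)
    rw [← heq]
    exact hgen

end Pool.Agent.Helper41
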