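import Mathlib
import Pool.Agent.Helper41.Lin7

/-! Bounded generation for subgroups of `SL(ι, ZMod p)`, and transvections. -/

namespace Pool.Agent.Helper41

open Matrix

theorem card_SL_le (p : ℕ) [hp : Fact p.Prime] (ι : Type) [Fintype ι] [DecidableEq ι] :
    Nat.card (Matrix.SpecialLinearGroup ι (ZMod p)) ≤ p ^ (Fintype.card ι) ^ 2 := by
  have h1 : Nat.card (Matrix ι ι (ZMod p)) = p ^ (Fintype.card ι) ^ 2 := by
    change Nat.card (ι → ι → ZMod p) = _
    rw [Nat.card_fun, Nat.card_fun, Nat.card_zmod, Nat.card_eq_fintype_card, ← pow_mul, sq]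
  rw [← h1]
  have : Finite (Matrix ι ι (ZMod p)) := by
    change Finite (ι → ι → ZMod p)
    infer_instance
  exact Nat.card_le_card_of_injective (Subtype.val : Matrix.SpecialLinearGroup ι (ZMod p) → _)
    Subtype.val_injective

instance finite_SL (p : ℕ) [hp : Fact p.Prime] (ι : Type) [Fintype ι] [DecidableEq ι] :
    Finite (Matrix.SpecialLinearGroup ι (ZMod p)) := by
  have : Finite (Matrix ι ι (ZMod p)) := by
    change Finite (ι → ι → ZMod p)
    infer_instance
  exact Finite.of_injective (Subtype.val : Matrix.SpecialLinearGroup ι (ZMod p) → _)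
    Subtype.val_injective

/-- Every subgroup of `SL_r(F_p)` is generated by a number of elements depending only on `r`. -/
theorem exists_rank_bound (r : ℕ) : ∃ C, ∀ (p : ℕ) [Fact p.Prime] (ι : Type) [Fintype ι]
    [DecidableEq ι], Fintype.card ι = r → ∀ H : Subgroup (Matrix.SpecialLinearGroup ι (ZMod p)),
    GenBy H C := by
  obtain ⟨C, hC⟩ := exists_MainB.{0, 0} (r ^ 2) r
  refine ⟨C, ?_⟩
  intro p hp ι _ _ hι H
  let K := AlgebraicClosure (ZMod p)
  have : CharP K p := inferInstance
  let Φ : Matrix.SpecialLinearGroup ι (ZMod p) →* ((ι → K) ≃ₗ[K] (ι → K)) :=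
    Matrix.SpecialLinearGroup.toLin'.comp (Matrix.SpecialLinearGroup.map (algebraMap (ZMod p) K))
  have hΦ : Function.Injective Φ := by
    apply (Matrix.SpecialLinearGroup.toLin'_injective).comp
    intro A B hAB
    ext i j
    have h1 := congrArg (fun M : Matrix.SpecialLinearGroup ι K => (M : Matrix ι ι K) i j) hAB
    simp only [Matrix.SpecialLinearGroup.map_apply_coe, RingHom.mapMatrix_apply, map_apply] at h1
    exact (algebraMap (ZMod p) K).injective h1
  apply GenBy.of_map hΦ
  have hfin : Finite (H.map Φ) := finite_map Φ H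
  apply hC p K (ι → K) (by rw [Module.finrank_fintype_fun_eq_card, hι])
  intro P hP
  obtain ⟨a, ha⟩ := IsPGroup.iff_card.1 hP
  refine (genBy_of_card_eq_pow a P ha).mono ?_
  have h1 : Nat.card P ≤ Nat.card (H.map Φ) :=
    Nat.card_le_card_of_injective (Subtype.val : P → _) Subtype.val_injective
  have h2 : Nat.card (H.map Φ) = Nat.card H :=
    (Nat.card_congr (H.equivMapOfInjective Φ hΦ).toEquiv).symm
  have h3 : Nat.card H ≤ Nat.card (Matrix.SpecialLinearGroup ι (ZMod p)) :=
    Nat.card_le_card_of_injective (Subtype.val : H → _) Subtype.val_injective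
  have h4 := card_SL_le p ι
  rw [ha, h2] at h1
  rw [hι] at h4
  exact (Nat.pow_le_pow_iff_right hp.out.one_lt).1 ((h1.trans h3).trans h4)

section tv

variable {ι : Type} [Fintype ι] [DecidableEq ι] {F : Type} [CommRing F]

theorem sl_ext {A B : Matrix.SpecialLinearGroup ι F} (h : (A : Matrix ι ι F) = (B : Matrix ι ι F)) :
    A = B := Subtype.ext h

/-- The transvection (`1` if the indices agree). -/
def tv (x y : ι) (t : F) : Matrix.SpecialLinearGroup ι F :=
  if h : x ≠ y then Matrix.SpecialLinearGroup.transvection h t else 1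

theorem tv_coe {x y : ι} (h : x ≠ y) (t : F) :
    (tv x y t : Matrix ι ι F) = 1 + single x y t := by
  unfold tv
  rw [dif_pos h]
  rfl

theorem tv_add (x y : ι) (s t : F) : tv x y (s + t) = tv x y s * tv x y t := by
  unfold tv
  split_ifs with h
  · exact Matrix.SpecialLinearGroup.transvection_add h s t
  · simp

theorem tv_zero (x y : ι) : tv x y (0 : F) = 1 := by
  unfold tv
  split_ifs with h
  · simp
  · rfl

theorem tv_neg (x y : ι) (t : F) : tv x y (-t) = (tv x y t)⁻¹ := by
  rw [eq_inv_iff_mul_eq_one, ← tv_add, neg_add_cancel, tv_zero]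

theorem tv_pow (x y : ι) (t : F) (n : ℕ) : tv x y t ^ n = tv x y (n * t) := by
  induction n with
  | zero => simp [tv_zero]
  | succ n ih => rw [pow_succ, ih, ← tv_add]; congr 1; push_cast; ring

theorem tv_comm {x y z w : ι} (h1 : y ≠ z) (h2 : x ≠ w) (s t : F) :
    tv x y s * tv z w t = tv z w t * tv x y s := by
  by_cases hxy : x = y
  · unfold tv; simp [hxy]
  by_cases hzw : z = w
  · unfold tv; simp [hzw]
  apply sl_ext
  simp only [Matrix.SpecialLinearGroup.coe_mul, tv_coe hxy, tv_coe hzw]
  simp only [mul_add, add_mul, mul_one, one_mul,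
    single_mul_single_of_ne _ _ _ _ h1, single_mul_single_of_ne _ _ _ _ h2.symm, add_zero]
  abel

theorem tv_comm_chain {x y z : ι} (h1 : x ≠ y) (h2 : y ≠ z) (h3 : x ≠ z) (s t : F) :
    tv x y s * tv y z t * (tv x y s)⁻¹ * (tv y z t)⁻¹ = tv x z (s * t) := by
  rw [mul_inv_eq_iff_eq_mul, mul_inv_eq_iff_eq_mul]
  apply sl_ext
  simp only [Matrix.SpecialLinearGroup.coe_mul, tv_coe h1, tv_coe h2, tv_coe h3]
  simp only [mul_add, add_mul, mul_one, one_mul, single_mul_single_same,
    single_mul_single_of_ne _ _ _ _ h3.symm, single_mul_single_of_ne _ _ _ _ h2.symm,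
    add_zero]
  abel

theorem tv_comm_chain' {x y z : ι} (h1 : x ≠ y) (h2 : y ≠ z) (h3 : x ≠ z) (s t : F) :
    tv y z t * tv x y s * (tv y z t)⁻¹ * (tv x y s)⁻¹ = tv x z (-(s * t)) := by
  rw [tv_neg, ← tv_comm_chain h1 h2 h3 s t]
  group

end tv

section gen

variable {ι : Type} [Fintype ι] [DecidableEq ι] {F : Type} [Field F]

theorem diag2n_eq {i j : ι} (hij : i ≠ j) (a : F) (ha : a ≠ 0) :
    Matrix.SpecialLinearGroup.diag2n hij a ha =
      tv i j a * tv j i (-a⁻¹) * tv i j a * (tv i j (-1) * tv j i 1 * tv i j (-1)) := by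
  have key : ∀ c : F, c ≠ 0 → ((tv i j c * tv j i (-c⁻¹) * tv i j c : Matrix.SpecialLinearGroup ι F) :
      Matrix ι ι F) = 1 - single i i 1 - single j j 1 + single i j c - single j i c⁻¹ := by
    intro c hc
    simp only [Matrix.SpecialLinearGroup.coe_mul, tv_coe hij, tv_coe hij.symm]
    simp only [mul_add, add_mul, mul_one, one_mul, single_mul_single_same,
      single_mul_single_of_ne _ _ _ _ hij, single_mul_single_of_ne _ _ _ _ hij.symm, add_zero,
      mul_neg, neg_mul, mul_inv_cancel₀ hc, inv_mul_cancel₀ hc]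
    simp only [← single_neg]
    abel
  have h1 := key a ha
  have h2 := key (-1) (by norm_num)
  apply sl_ext
  rw [Matrix.SpecialLinearGroup.coe_mul, h1]
  have h3 : ((tv i j (-1) * tv j i 1 * tv i j (-1) : Matrix.SpecialLinearGroup ι F) :
      Matrix ι ι F) =
      1 - single i i 1 - single j j 1 + single i j (-1) - single j i (-1) := by
    have h4 : (-(-1 : F)⁻¹) = 1 := by rw [inv_neg_one]; ring
    rw [h4] at h2
    rw [h2, inv_neg_one]
  rw [h3]
  simp only [mul_add, add_mul, mul_sub, sub_mul, mul_one, one_mul, single_mul_single_same,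
    single_mul_single_of_ne _ _ _ _ hij, single_mul_single_of_ne _ _ _ _ hij.symm, add_zero,
    mul_neg, neg_mul]
  ext k l
  simp only [Matrix.SpecialLinearGroup.diag2n_coe, Matrix.diagonal_apply, Matrix.add_apply,
    Matrix.sub_apply, Matrix.single_apply, Matrix.one_apply, Matrix.zero_apply]
  by_cases hki : k = i
  · subst hki
    by_cases hli : l = k
    · subst hli
      simp [hij, hij.symm]
    · by_cases hlj : l = j
      · subst hlj
        simp [hij, hij.symm]
      · simp [hij, hij.symm, hli, hlj, Ne.symm hli, Ne.symm hlj]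
  · by_cases hkj : k = j
    · subst hkj
      by_cases hli : l = i
      · subst hli
        simp [hij, hij.symm]
      · by_cases hlj : l = k
        · subst hlj
          simp [hij, hij.symm]
        · simp [hij, hij.symm, hli, hlj, Ne.symm hli, Ne.symm hlj]
    · simp [hki, hkj, Ne.symm hki, Ne.symm hkj]

theorem closure_tv [Nontrivial ι] (N : Subgroup (Matrix.SpecialLinearGroup ι F))
    (h : ∀ (x y : ι) (t : F), x ≠ y → tv x y t ∈ N) : N = ⊤ := by
  rw [eq_top_iff]
  intro M _
  refine Matrix.SpecialLinearGroup.diagonal_transvection_induction' (P := fun M => M ∈ N) M ?_ ?_ ?_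
  · intro i j hij c hc
    rw [diag2n_eq hij c hc]
    exact N.mul_mem (N.mul_mem (N.mul_mem (h _ _ _ hij) (h _ _ _ hij.symm)) (h _ _ _ hij))
      (N.mul_mem (N.mul_mem (h _ _ _ hij) (h _ _ _ hij.symm)) (h _ _ _ hij))
  · intro i j hij a
    have := h i j a hij
    unfold tv at this
    rwa [dif_pos hij] at this
  · intro A B hA hB
    exact N.mul_mem hA hB

end gen

end Pool.Agent.Helper41
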