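import Mathlib
import Pool.Agent.Helper41.SL1

/-! The cyclic rotation in `SL_r(F)`, `r` odd. -/

namespace Pool.Agent.Helper41

open Matrix

section rot

variable {r : ℕ} [NeZero r] {F : Type} [CommRing F]

theorem sign_shift (hr : Odd r) : Equiv.Perm.sign (Equiv.subRight (1 : ZMod r)) = 1 := by
  have h1 : (Equiv.subRight (1 : ZMod r) : Equiv.Perm (ZMod r)) ^ r = 1 := by
    have h2 : ∀ (n : ℕ) (x : ZMod r),
        ((Equiv.subRight (1 : ZMod r) : Equiv.Perm (ZMod r)) ^ n) x = x - n := by
      intro n
      induction n with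
      | zero => intro x; simp
      | succ n ih =>
        intro x
        rw [pow_succ, Equiv.Perm.mul_apply, ih]
        simp only [Equiv.subRight_apply]
        push_cast
        ring
    ext x
    rw [h2]
    simp
  have h3 := congrArg Equiv.Perm.sign h1
  rw [map_pow, map_one] at h3
  rw [Int.units_pow_eq_pow_mod_two, Nat.odd_iff.1 hr, pow_one] at h3
  exact h3

/-- The cyclic rotation. -/
def rot (hr : Odd r) : Matrix.SpecialLinearGroup (ZMod r) F :=
  ⟨Equiv.Perm.permMatrix F (Equiv.subRight (1 : ZMod r)), by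
    rw [Matrix.det_permutation, sign_shift hr]; simp⟩

theorem rot_tv (hr : Odd r) (x y : ZMod r) (t : F) :
    rot hr * tv x y t = tv (x + 1) (y + 1) t * rot hr := by
  by_cases h : x = y
  · unfold tv; simp [h]
  have h' : x + 1 ≠ y + 1 := fun h2 => h (add_right_cancel h2)
  apply sl_ext
  simp only [Matrix.SpecialLinearGroup.coe_mul, tv_coe h, tv_coe h']
  rw [mul_add, add_mul, mul_one, one_mul]
  congr 1
  ext i j
  rw [Matrix.mul_apply, Matrix.mul_apply]
  simp only [rot, Equiv.Perm.permMatrix, PEquiv.toMatrix_apply, Equiv.toPEquiv_apply,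
    Matrix.single_apply, Option.mem_some_iff, Equiv.subRight_apply]
  rw [Finset.sum_eq_single x, Finset.sum_eq_single (y + 1)]
  · by_cases h1 : x + 1 = i
    · subst h1
      by_cases h2 : y = j
      · subst h2
        simp
      · have : ¬ (y + 1 - 1 = j) := by simpa using h2
        simp [h2]
    · have : ¬ (i - 1 = x) := by
        intro h3; apply h1; rw [← h3]; ring
      simp [this, h1]
  · intro b _ hb
    have : ¬ (x + 1 = i ∧ y + 1 = b) := by rintro ⟨_, h2⟩; exact hb h2.symm
    simp [this]
  · intro h; exact absurd (Finset.mem_univ _) h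
  · intro b _ hb
    have : ¬ (x = b ∧ y = j) := by rintro ⟨h2, _⟩; exact hb h2.symm
    simp [this]
  · intro h; exact absurd (Finset.mem_univ _) h

end rot

section cyc

variable {r : ℕ} [NeZero r] {p : ℕ} [hp : Fact p.Prime]

omit [NeZero r] in
theorem zmod_natCast_ne_zero {d : ℕ} (h0 : 0 < d) (hd : d < r) : (d : ZMod r) ≠ 0 := by
  intro h
  rw [ZMod.natCast_eq_zero_iff] at h
  exact absurd (Nat.le_of_dvd h0 h) (not_le.2 hd)

theorem top_of_tv_succ (hr : 2 ≤ r) (N : Subgroup (Matrix.SpecialLinearGroup (ZMod r) (ZMod p)))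
    (h : ∀ x : ZMod r, tv x (x + 1) (1 : ZMod p) ∈ N) : N = ⊤ := by
  have : Fact (1 < r) := ⟨hr⟩
  have h1 : ∀ (x : ZMod r) (t : ZMod p), tv x (x + 1) t ∈ N := by
    intro x t
    have h2 := N.pow_mem (h x) t.val
    rw [tv_pow] at h2
    simpa using h2
  have h2 : ∀ d : ℕ, 0 < d → d < r → ∀ (x : ZMod r) (t : ZMod p), tv x (x + d) t ∈ N := by
    intro d
    induction d with
    | zero => intro h; omega
    | succ d ih =>
      intro _ hd x t
      rcases Nat.eq_zero_or_pos d with rfl | hd0
      · simpa using h1 x t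
      · have e1 : x ≠ x + d := by
          intro h3
          exact zmod_natCast_ne_zero hd0 (by omega) (left_eq_add.1 h3)
        have e2 : x + d ≠ x + d + 1 := by
          intro h3
          have := left_eq_add.1 h3
          exact one_ne_zero this
        have e3 : x ≠ x + d + 1 := by
          intro h3
          rw [add_assoc] at h3
          have h4 := left_eq_add.1 h3
          have h5 : ((d + 1 : ℕ) : ZMod r) = 0 := by push_cast; exact h4
          exact zmod_natCast_ne_zero (by omega) hd h5
        have h6 := tv_comm_chain e1 e2 e3 t (1 : ZMod p)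
        rw [mul_one] at h6
        have h7 : x + ((d + 1 : ℕ) : ZMod r) = x + d + 1 := by push_cast; ring
        rw [h7, ← h6]
        have m1 := ih hd0 (by omega) x t
        have m2 := h1 (x + d) 1
        exact N.mul_mem (N.mul_mem (N.mul_mem m1 m2) (N.inv_mem m1)) (N.inv_mem m2)
  apply closure_tv
  intro x y t hxy
  have h3 : y = x + ((y - x).val : ZMod r) := by simp
  rw [h3]
  apply h2
  · rw [Nat.pos_iff_ne_zero]
    intro h4
    rw [ZMod.val_eq_zero, sub_eq_zero] at h4
    exact hxy h4.symm
  · exact ZMod.val_lt _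

end cyc

end Pool.Agent.Helper41
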