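import Mathlib
import Pool.Agent.Helper41.SL2

/-! The three-generated subgroup of the product of the groups `SL_{6j+3}(F_{p_j})`. -/

namespace Pool.Agent.Helper41

open Matrix

/-- the ranks -/
def rr (j : ℕ) : ℕ := 6 * j + 3

instance neZero_rr (j : ℕ) : NeZero (rr j) := ⟨by unfold rr; omega⟩

theorem odd_rr (j : ℕ) : Odd (rr j) := ⟨3 * j + 1, by unfold rr; ring⟩

theorem three_le_rr (j : ℕ) : 3 ≤ rr j := by unfold rr; omega

theorem intCast_ne {r : ℕ} {u v : ℤ} (h : u ≠ v) (h1 : u - v < r) (h2 : v - u < r) :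
    (u : ZMod r) ≠ v := by
  intro h3
  rw [ZMod.intCast_eq_intCast_iff_dvd_sub] at h3
  obtain ⟨c, hc⟩ := h3
  have hr : (0 : ℤ) ≤ r := Int.natCast_nonneg r
  rcases lt_trichotomy c 0 with hc0 | hc0 | hc0
  · nlinarith
  · subst hc0; apply h; linarith
  · nlinarith

variable (p : ℕ → ℕ) [hp : ∀ j, Fact (p j).Prime]

/-- The factors. -/
abbrev SS (j : ℕ) : Type := Matrix.SpecialLinearGroup (ZMod (rr j)) (ZMod (p j))

/-- The product. -/
abbrev GG : Type := ∀ j, SS p j

omit hp in
/-- transvections at all coordinates simultaneously -/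
def gT (u v t : ℤ) : GG p := fun j => tv (u : ZMod (rr j)) (v : ZMod (rr j)) (t : ZMod (p j))

/-- rotation at all coordinates simultaneously -/
def gB : GG p := fun j => rot (odd_rr j)

theorem gB_gT (u v t : ℤ) : gB p * gT p u v t = gT p (u + 1) (v + 1) t * gB p := by
  funext j
  simp only [Pi.mul_apply, gB, gT]
  rw [rot_tv]
  push_cast
  rfl

theorem conj_gT (u v t : ℤ) : gB p * gT p u v t * (gB p)⁻¹ = gT p (u + 1) (v + 1) t := by
  rw [gB_gT]; group

theorem conj_gT' (u v t : ℤ) : (gB p)⁻¹ * gT p (u + 1) (v + 1) t * gB p = gT p u v t := by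
  rw [mul_assoc, ← gB_gT]; group

/-- The group `Γ`. -/
def Gam : Subgroup (GG p) := Subgroup.closure {gT p 0 1 1, gT p 1 0 1, gB p}

theorem a_mem : gT p 0 1 1 ∈ Gam p := Subgroup.subset_closure (by simp)
theorem a'_mem : gT p 1 0 1 ∈ Gam p := Subgroup.subset_closure (by simp)
theorem b_mem : gB p ∈ Gam p := Subgroup.subset_closure (by simp)

/-- a set of elements closed under conjugation by the rotation contains all shifts -/
theorem shift_mem (P : GG p → Prop) (hP : ∀ g, P g → P (gB p * g * (gB p)⁻¹))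
    (hP' : ∀ g, P g → P ((gB p)⁻¹ * g * gB p)) {u v t : ℤ} (h : P (gT p u v t)) (k : ℤ) :
    P (gT p (u + k) (v + k) t) := by
  induction k using Int.induction_on with
  | zero => simpa using h
  | succ k ih =>
    have := hP _ ih
    rw [conj_gT] at this
    rw [← add_assoc, ← add_assoc]
    exact this
  | pred k ih =>
    have e1 : u + -(k : ℤ) = (u + (-(k : ℤ) - 1)) + 1 := by ring
    have e2 : v + -(k : ℤ) = (v + (-(k : ℤ) - 1)) + 1 := by ring
    rw [e1, e2] at ih
    have := hP' _ ih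
    rwa [conj_gT'] at this

theorem up_mem (k : ℤ) : gT p k (k + 1) 1 ∈ Gam p := by
  have := shift_mem p (fun g => g ∈ Gam p)
    (fun g hg => (Gam p).mul_mem ((Gam p).mul_mem (b_mem p) hg) ((Gam p).inv_mem (b_mem p)))
    (fun g hg => (Gam p).mul_mem ((Gam p).mul_mem ((Gam p).inv_mem (b_mem p)) hg) (b_mem p))
    (a_mem p) k
  rwa [zero_add, add_comm (1 : ℤ) k] at this

theorem down_mem (k : ℤ) : gT p (k + 1) k 1 ∈ Gam p := by
  have := shift_mem p (fun g => g ∈ Gam p)
    (fun g hg => (Gam p).mul_mem ((Gam p).mul_mem (b_mem p) hg) ((Gam p).inv_mem (b_mem p)))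
    (fun g hg => (Gam p).mul_mem ((Gam p).mul_mem ((Gam p).inv_mem (b_mem p)) hg) (b_mem p))
    (a'_mem p) k
  rwa [zero_add, add_comm (1 : ℤ) k] at this

theorem cst_ne (j : ℕ) {u v : ℤ} (h : u ≠ v) (h1 : u - v < 3) (h2 : v - u < 3) :
    (u : ZMod (rr j)) ≠ (v : ZMod (rr j)) := by
  have := three_le_rr j
  exact intCast_ne h (by omega) (by omega)

/-- commutator of transvections -/
theorem comm_gT {u v w : ℤ} (h1 : u ≠ v) (h2 : v ≠ w) (h3 : u ≠ w)
    (h4 : u - v < 3) (h5 : v - u < 3) (h6 : v - w < 3) (h7 : w - v < 3) (h8 : u - w < 3)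
    (h9 : w - u < 3) (s t : ℤ) :
    gT p u v s * gT p v w t * (gT p u v s)⁻¹ * (gT p v w t)⁻¹ = gT p u w (s * t) := by
  funext j
  simp only [Pi.mul_apply, Pi.inv_apply, gT]
  rw [tv_comm_chain (cst_ne j h1 h4 h5) (cst_ne j h2 h6 h7) (cst_ne j h3 h8 h9)]
  push_cast
  rfl

theorem T21_mem : gT p 2 1 1 ∈ Gam p := down_mem p 1

theorem T12_mem : gT p 1 2 1 ∈ Gam p := up_mem p 1

theorem T20_mem : gT p 2 0 1 ∈ Gam p := by
  have h1 := T21_mem p
  have h2 := a'_mem p
  have h3 := comm_gT p (u := 2) (v := 1) (w := 0) (by norm_num) (by norm_num) (by norm_num)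
    (by norm_num) (by norm_num) (by norm_num) (by norm_num) (by norm_num) (by norm_num) 1 1
  rw [one_mul] at h3
  rw [← h3]
  exact (Gam p).mul_mem ((Gam p).mul_mem ((Gam p).mul_mem h1 h2) ((Gam p).inv_mem h1))
    ((Gam p).inv_mem h2)

/-- head projection -/
def hd (i : ℕ) : GG p →* GG p where
  toFun g j := if j < i then g j else 1
  map_one' := by funext j; simp
  map_mul' g h := by
    funext j
    simp only [Pi.mul_apply]
    split_ifs <;> simp

/-- tail projection -/
def tl (i : ℕ) : GG p →* GG p where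
  toFun g j := if j < i then 1 else g j
  map_one' := by funext j; simp
  map_mul' g h := by
    funext j
    simp only [Pi.mul_apply]
    split_ifs <;> simp

theorem hd_apply (i : ℕ) (g : GG p) (j : ℕ) : hd p i g j = if j < i then g j else 1 := rfl
theorem tl_apply (i : ℕ) (g : GG p) (j : ℕ) : tl p i g j = if j < i then 1 else g j := rfl

theorem hd_mul_tl (i : ℕ) (g : GG p) : hd p i g * tl p i g = g := by
  funext j
  rw [Pi.mul_apply, hd_apply, tl_apply]
  split_ifs <;> simp

theorem hd_tl_comm (i : ℕ) (g h : GG p) : hd p i g * tl p i h = tl p i h * hd p i g := by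
  funext j
  rw [Pi.mul_apply, Pi.mul_apply, hd_apply, tl_apply]
  split_ifs <;> simp

theorem hd_succ (i : ℕ) (g : GG p) : hd p (i + 1) g = hd p i g * Pi.mulSingle i (g i) := by
  funext j
  rw [Pi.mul_apply, hd_apply, hd_apply]
  rcases lt_trichotomy j i with h | h | h
  · rw [if_pos (by omega), if_pos h, Pi.mulSingle_eq_of_ne h.ne, mul_one]
  · subst h
    rw [if_pos (by omega), if_neg (lt_irrefl _), Pi.mulSingle_eq_same, one_mul]
  · rw [if_neg (by omega), if_neg (by omega), Pi.mulSingle_eq_of_ne h.ne', mul_one]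

theorem hd_mem_of {N : Subgroup (GG p)} (i : ℕ)
    (h : ∀ j < i, ∀ s : SS p j, Pi.mulSingle j s ∈ N) (g : GG p) : hd p i g ∈ N := by
  induction i with
  | zero =>
    have : hd p 0 g = 1 := by funext j; rw [hd_apply]; simp
    rw [this]; exact N.one_mem
  | succ i ih =>
    rw [hd_succ]
    exact N.mul_mem (ih fun j hj s => h j (by omega) s) (h i (by omega) _)

/-- (B1) `Γ` contains the direct sum of all factors. -/
theorem single_mem (j : ℕ) : ∀ s : SS p j, Pi.mulSingle j s ∈ Gam p := by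
  induction j using Nat.strong_induction_on with
  | _ j ih =>
  have hhd : ∀ g : GG p, hd p j g ∈ Gam p := hd_mem_of p j ih
  have htl : ∀ g ∈ Gam p, tl p j g ∈ Gam p := by
    intro g hg
    have : tl p j g = (hd p j g)⁻¹ * g := by
      rw [eq_inv_mul_iff_mul_eq, hd_mul_tl]
    rw [this]
    exact (Gam p).mul_mem ((Gam p).inv_mem (hhd g)) hg
  -- the commutator
  let k : ℤ := rr j + 1
  let c : GG p := gT p 0 1 1 * gT p k (k + 1) 1 * (gT p 0 1 1)⁻¹ * (gT p k (k + 1) 1)⁻¹
  have hc : c ∈ Gam p :=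
    (Gam p).mul_mem ((Gam p).mul_mem ((Gam p).mul_mem (a_mem p) (up_mem p k))
      ((Gam p).inv_mem (a_mem p))) ((Gam p).inv_mem (up_mem p k))
  have hc2 : tl p j c = Pi.mulSingle j (tv (0 : ZMod (rr j)) 2 1) := by
    funext i
    rw [tl_apply]
    rcases lt_trichotomy i j with h | h | h
    · rw [if_pos h, Pi.mulSingle_eq_of_ne h.ne]
    · subst h
      rw [if_neg (lt_irrefl _), Pi.mulSingle_eq_same]
      have e1 : ((k : ℤ) : ZMod (rr i)) = ((1 : ℤ) : ZMod (rr i)) := by simp [k]
      have e2 : ((k + 1 : ℤ) : ZMod (rr i)) = ((2 : ℤ) : ZMod (rr i)) := by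
        push_cast
        rw [e1]
        push_cast
        norm_num
      simp only [c, Pi.mul_apply, Pi.inv_apply, gT]
      rw [e1, e2, tv_comm_chain (cst_ne i (by norm_num) (by norm_num) (by norm_num))
        (cst_ne i (by norm_num) (by norm_num) (by norm_num))
        (cst_ne i (by norm_num) (by norm_num) (by norm_num))]
      simp
    · rw [if_neg (by omega), Pi.mulSingle_eq_of_ne h.ne']
      simp only [c, Pi.mul_apply, Pi.inv_apply, gT]
      have hri : rr j + 6 ≤ rr i := by unfold rr; omega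
      have e1 : ((1 : ℤ) : ZMod (rr i)) ≠ (k : ZMod (rr i)) :=
        intCast_ne (by simp only [k]; have := three_le_rr j; omega) (by simp only [k]; omega)
          (by simp only [k]; omega)
      have e2 : ((0 : ℤ) : ZMod (rr i)) ≠ ((k + 1 : ℤ) : ZMod (rr i)) :=
        intCast_ne (by simp only [k]; omega) (by simp only [k]; omega)
          (by simp only [k]; omega)
      rw [tv_comm e1 e2]
      group
  have h1 : Pi.mulSingle j (tv (0 : ZMod (rr j)) 2 (1 : ZMod (p j))) ∈ Gam p := by
    rw [← hc2]; exact htl _ hc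
  -- commutator with T21
  have h2 : Pi.mulSingle j (tv (0 : ZMod (rr j)) 1 (1 : ZMod (p j))) ∈ Gam p := by
    have h3 : Pi.mulSingle j (tv (0 : ZMod (rr j)) 2 (1 : ZMod (p j))) * gT p 2 1 1 *
        (Pi.mulSingle j (tv (0 : ZMod (rr j)) 2 (1 : ZMod (p j))))⁻¹ * (gT p 2 1 1)⁻¹ =
        (Pi.mulSingle j (tv (0 : ZMod (rr j)) 1 (1 : ZMod (p j))) : GG p) := by
      funext i
      simp only [Pi.mul_apply, Pi.inv_apply]
      by_cases h : i = j
      · subst h
        rw [Pi.mulSingle_eq_same, Pi.mulSingle_eq_same]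
        have e0 : (0 : ZMod (rr i)) = ((0 : ℤ) : ZMod (rr i)) := by simp
        have e1 : (1 : ZMod (rr i)) = ((1 : ℤ) : ZMod (rr i)) := by simp
        have e2 : (2 : ZMod (rr i)) = ((2 : ℤ) : ZMod (rr i)) := by simp
        simp only [gT]
        rw [e0, e1, e2, tv_comm_chain (cst_ne i (by norm_num) (by norm_num) (by norm_num))
          (cst_ne i (by norm_num) (by norm_num) (by norm_num))
          (cst_ne i (by norm_num) (by norm_num) (by norm_num))]
        simp
      · rw [Pi.mulSingle_eq_of_ne h, Pi.mulSingle_eq_of_ne h]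
        group
    rw [← h3]
    exact (Gam p).mul_mem ((Gam p).mul_mem ((Gam p).mul_mem h1 (T21_mem p))
      ((Gam p).inv_mem h1)) ((Gam p).inv_mem (T21_mem p))
  -- rotate
  have hrot : ∀ x : ℤ, Pi.mulSingle j (tv (x : ZMod (rr j)) (x + 1) (1 : ZMod (p j))) ∈ Gam p := by
    intro x
    have key : ∀ (s : SS p j) (g : GG p), g * Pi.mulSingle j s * g⁻¹ =
        Pi.mulSingle j (g j * s * (g j)⁻¹) := by
      intro s g
      funext i
      simp only [Pi.mul_apply, Pi.inv_apply]
      by_cases h : i = j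
      · subst h
        rw [Pi.mulSingle_eq_same, Pi.mulSingle_eq_same]
      · rw [Pi.mulSingle_eq_of_ne h, Pi.mulSingle_eq_of_ne h]
        group
    have key2 : ∀ (x y : ZMod (rr j)) (t : ZMod (p j)),
        gB p j * tv x y t * (gB p j)⁻¹ = tv (x + 1) (y + 1) t := by
      intro x y t
      simp only [gB]
      rw [rot_tv]; group
    have key3 : ∀ (x y : ZMod (rr j)) (t : ZMod (p j)),
        (gB p)⁻¹ j * tv (x + 1) (y + 1) t * ((gB p)⁻¹ j)⁻¹ = tv x y t := by
      intro x y t
      rw [← key2 x y t]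
      simp only [Pi.inv_apply]
      group
    induction x using Int.induction_on with
    | zero => simpa using h2
    | succ k ih =>
      have := (Gam p).mul_mem ((Gam p).mul_mem (b_mem p) ih) ((Gam p).inv_mem (b_mem p))
      rw [key, key2] at this
      push_cast at this ⊢
      exact this
    | pred k ih =>
      have e1 : ((-(k : ℤ) : ℤ) : ZMod (rr j)) = ((-(k : ℤ) - 1 : ℤ) : ZMod (rr j)) + 1 := by
        push_cast; ring
      rw [e1] at ih
      have := (Gam p).mul_mem ((Gam p).mul_mem ((Gam p).inv_mem (b_mem p)) ih)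
        ((Gam p).inv_mem ((Gam p).inv_mem (b_mem p)))
      rw [key, key3] at this
      exact this
  have htop : (Gam p).comap (MonoidHom.mulSingle (fun j => SS p j) j) = ⊤ := by
    apply top_of_tv_succ (by have := three_le_rr j; omega)
    intro x
    have h5 := hrot x.val
    rw [Subgroup.mem_comap]
    have h6 : ((x.val : ℤ) : ZMod (rr j)) = x := by simp
    rw [h6] at h5
    exact h5
  intro s
  have : s ∈ (Gam p).comap (MonoidHom.mulSingle (fun j => SS p j) j) := by
    rw [htop]; trivial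
  exact this

theorem hd_mem (i : ℕ) (g : GG p) : hd p i g ∈ Gam p :=
  hd_mem_of p i (fun j _ s => single_mem p j s) g

theorem tl_mem (i : ℕ) {g : GG p} (hg : g ∈ Gam p) : tl p i g ∈ Gam p := by
  have : tl p i g = (hd p i g)⁻¹ * g := by
    rw [eq_inv_mul_iff_mul_eq, hd_mul_tl]
  rw [this]
  exact (Gam p).mul_mem ((Gam p).inv_mem (hd_mem p i g)) hg

end Pool.Agent.Helper41
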