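import Mathlib
import Pool.Agent.Helper41.PG1

/-! Small index subgroups of `Γ` contain the tails of the generators `a`, `a'`. -/

namespace Pool.Agent.Helper41

open Matrix

theorem mem_of_pow_eq_one {Γ : Type*} [Group Γ] (H : Subgroup Γ) (hH : H.index ≠ 0) {q : ℕ}
    (hq : q.Prime) (hlt : H.index < q) {x : Γ} (hx : x ^ q = 1) : x ∈ H := by
  obtain ⟨n, hn0, hn, hxn⟩ := Subgroup.exists_pow_mem_of_index_ne_zero hH x
  have hcop : Nat.Coprime n q := by
    apply Nat.Coprime.symm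
    rw [Nat.Prime.coprime_iff_not_dvd hq]
    intro h
    exact absurd (Nat.le_of_dvd hn0 h) (by omega)
  have h1 : (Int.gcd n q : ℤ) = n * Int.gcdA n q + q * Int.gcdB n q := Int.gcd_eq_gcd_ab n q
  have h2 : Int.gcd (n : ℤ) (q : ℤ) = 1 := by
    rw [Int.gcd_natCast_natCast]; exact hcop
  rw [h2] at h1
  have h3 : x = (x ^ n) ^ (Int.gcdA n q) := by
    have h4 : x = x ^ ((1 : ℕ) : ℤ) := by simp
    rw [h1, _root_.zpow_add, _root_.zpow_mul, _root_.zpow_mul, zpow_natCast, zpow_natCast, hx, _root_.one_zpow,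
      mul_one] at h4
    exact h4
  rw [h3]
  exact H.zpow_mem hxn _

theorem mem_normalCore_of_pow_eq_one {Γ : Type*} [Group Γ] (H : Subgroup Γ) (hH : H.index ≠ 0)
    {q : ℕ} (hq : q.Prime) (hlt : H.index < q) {x : Γ} (hx : x ^ q = 1) : x ∈ H.normalCore := by
  intro g
  apply mem_of_pow_eq_one H hH hq hlt
  rw [conj_pow, hx]
  group

variable (p : ℕ → ℕ) [hp : ∀ j, Fact (p j).Prime]

theorem hd_mem_of' {N : Subgroup (GG p)} (i M : ℕ)
    (h : ∀ j, i ≤ j → ∀ s : SS p j, Pi.mulSingle j s ∈ N) (g : GG p)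
    (hg : ∀ j < i, g j = 1) : hd p M g ∈ N := by
  induction M with
  | zero =>
    have : hd p 0 g = 1 := by funext j; rw [hd_apply]; simp
    rw [this]; exact N.one_mem
  | succ M ih =>
    rw [hd_succ]
    refine N.mul_mem ih ?_
    by_cases hM : i ≤ M
    · exact h M hM _
    · rw [hg M (by omega), Pi.mulSingle_one]
      exact N.one_mem

theorem finsupp_mem {N : Subgroup (GG p)} (i M : ℕ)
    (h : ∀ j, i ≤ j → ∀ s : SS p j, Pi.mulSingle j s ∈ N) (g : GG p)
    (hg : ∀ j < i, g j = 1) (hg' : ∀ j, M ≤ j → g j = 1) : g ∈ N := by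
  have : g = hd p M g := by
    funext j
    rw [hd_apply]
    split_ifs with h1
    · rfl
    · exact hg' j (by omega)
  rw [this]
  exact hd_mem_of' p i M h g hg

/-- (B4) -/
theorem tail_mem (i : ℕ) (N : Subgroup (GG p))
    (hconj : ∀ g ∈ Gam p, ∀ n ∈ N, g * n * g⁻¹ ∈ N)
    (hpig : ∀ f : ℕ → GG p, (∀ k, f k ∈ Gam p) → ∃ k l, k ≠ l ∧ (f k)⁻¹ * f l ∈ N)
    (hsing : ∀ j, i ≤ j → ∀ s : SS p j, Pi.mulSingle j s ∈ N) :
    tl p i (gT p 0 1 1) ∈ N ∧ tl p i (gT p 1 0 1) ∈ N := by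
  have hconj' : ∀ g ∈ Gam p, ∀ n ∈ N, g⁻¹ * n * g ∈ N := by
    intro g hg n hn
    have := hconj g⁻¹ ((Gam p).inv_mem hg) n hn
    rwa [inv_inv] at this
  obtain ⟨k, l, hkl, hn⟩ := hpig (fun k => tl p i (gT p (3 * k) (3 * k + 1) 1))
    (fun k => tl_mem p i (up_mem p _))
  set a := tl p i (gT p (3 * k) (3 * k + 1) 1) with ha
  set a' := tl p i (gT p (3 * l) (3 * l + 1) 1) with ha'
  set u := tl p i (gT p (3 * k - 1) (3 * k) 1) with hu
  have hau : a ∈ Gam p := tl_mem p i (up_mem p _)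
  have huu : u ∈ Gam p := by
    have := up_mem p (3 * k - 1)
    rw [sub_add_cancel] at this
    exact tl_mem p i this
  -- first commutator
  have hc1 : u * a * u⁻¹ * a⁻¹ = tl p i (gT p (3 * k - 1) (3 * k + 1) 1) := by
    rw [hu, ha, ← map_inv, ← map_inv, ← map_mul, ← map_mul, ← map_mul]
    congr 1
    have := comm_gT p (u := 3 * k - 1) (v := 3 * k) (w := 3 * k + 1) (by omega) (by omega)
      (by omega) (by omega) (by omega) (by omega) (by omega) (by omega) (by omega) 1 1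
    rw [one_mul] at this
    exact this
  -- second commutator
  have hc2 : u * a' * u⁻¹ * a'⁻¹ ∈ N := by
    apply finsupp_mem p i (3 * (k + l) + 5) hsing
    · intro j hj
      simp only [hu, ha', Pi.mul_apply, Pi.inv_apply, tl_apply]
      simp [hj]
    · intro j hj
      simp only [hu, ha', Pi.mul_apply, Pi.inv_apply, tl_apply]
      split_ifs with h1
      · simp
      · simp only [gT]
        have hr : 18 * (k + l) + 30 ≤ rr j := by unfold rr; omega
        rw [tv_comm]
        · group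
        · exact intCast_ne (by omega) (by omega) (by omega)
        · exact intCast_ne (by omega) (by omega) (by omega)
  have hc3 : u * a * u⁻¹ * a⁻¹ ∈ N := by
    have e : u * a * u⁻¹ * a⁻¹ = (u * a' * u⁻¹ * a'⁻¹) *
        (a * ((a⁻¹ * a') * (u * (a⁻¹ * a')⁻¹ * u⁻¹)) * a⁻¹) := by group
    rw [e]
    exact N.mul_mem hc2 (hconj a hau _ (N.mul_mem hn (hconj u huu _ (N.inv_mem hn))))
  rw [hc1] at hc3
  -- shift
  have hb : ∀ g : GG p, tl p i (gB p * g * (gB p)⁻¹) = gB p * tl p i g * (gB p)⁻¹ := by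
    intro g
    funext j
    simp only [Pi.mul_apply, Pi.inv_apply, tl_apply]
    split_ifs <;> simp
  have hb' : ∀ g : GG p, tl p i ((gB p)⁻¹ * g * gB p) = (gB p)⁻¹ * tl p i g * gB p := by
    intro g
    funext j
    simp only [Pi.mul_apply, Pi.inv_apply, tl_apply]
    split_ifs <;> simp
  have hshift : ∀ {u v t : ℤ}, tl p i (gT p u v t) ∈ N → ∀ k : ℤ,
      tl p i (gT p (u + k) (v + k) t) ∈ N := by
    intro u v t h k
    apply shift_mem p (fun g => tl p i g ∈ N) _ _ h k
    · intro g hg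
      rw [hb]
      exact hconj _ (b_mem p) _ hg
    · intro g hg
      rw [hb']
      exact hconj' _ (b_mem p) _ hg
  have h02 : tl p i (gT p 0 2 1) ∈ N := by
    have := hshift hc3 (1 - 3 * k)
    have e1 : (3 * (k : ℤ) - 1 + (1 - 3 * k)) = 0 := by ring
    have e2 : (3 * (k : ℤ) + 1 + (1 - 3 * k)) = 2 := by ring
    rwa [e1, e2] at this
  have hcm : ∀ n ∈ N, ∀ g ∈ Gam p, n * g * n⁻¹ * g⁻¹ ∈ N := by
    intro n hn g hg
    have e : n * g * n⁻¹ * g⁻¹ = n * (g * n⁻¹ * g⁻¹) := by group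
    rw [e]
    exact N.mul_mem hn (hconj g hg _ (N.inv_mem hn))
  have htlc : ∀ g h : GG p, tl p i g * h * (tl p i g)⁻¹ * h⁻¹ = tl p i (g * h * g⁻¹ * h⁻¹) := by
    intro g h
    funext j
    simp only [Pi.mul_apply, Pi.inv_apply, tl_apply]
    split_ifs <;> simp
  have h01 : tl p i (gT p 0 1 1) ∈ N := by
    have h3 := comm_gT p (u := 0) (v := 2) (w := 1) (by norm_num) (by norm_num) (by norm_num)
      (by norm_num) (by norm_num) (by norm_num) (by norm_num) (by norm_num) (by norm_num) 1 1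
    rw [one_mul] at h3
    rw [← h3, ← htlc]
    exact hcm _ h02 _ (T21_mem p)
  refine ⟨h01, ?_⟩
  have h12 : tl p i (gT p 1 2 1) ∈ N := by
    have := hshift h01 1
    simpa using this
  have h3 := comm_gT p (u := 1) (v := 2) (w := 0) (by norm_num) (by norm_num) (by norm_num)
      (by norm_num) (by norm_num) (by norm_num) (by norm_num) (by norm_num) (by norm_num) 1 1
  rw [one_mul] at h3
  rw [← h3, ← htlc]
  exact hcm _ h12 _ (T20_mem p)

/-- All elements of a simple-type factor of characteristic larger than the index lie in `H`. -/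
theorem sing_mem_core (H : Subgroup (Gam p)) (hH : H.index ≠ 0) (j : ℕ) (hj : H.index < p j)
    (s : SS p j) : Pi.mulSingle j s ∈ H.normalCore.map (Gam p).subtype := by
  let N := H.normalCore.map (Gam p).subtype
  have htop : N.comap (MonoidHom.mulSingle (fun j => SS p j) j) = ⊤ := by
    have : Nontrivial (ZMod (rr j)) := by
      have h3 := three_le_rr j
      have : Fact (1 < rr j) := ⟨by omega⟩
      infer_instance
    apply closure_tv
    intro x y t hxy
    rw [Subgroup.mem_comap]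
    refine ⟨⟨Pi.mulSingle j (tv x y t), single_mem p j _⟩, ?_, rfl⟩
    apply mem_normalCore_of_pow_eq_one H hH (hp j).out hj
    apply Subtype.ext
    change (Pi.mulSingle j (tv x y t) : GG p) ^ (p j) = 1
    rw [← Pi.mulSingle_pow, tv_pow]
    simp [tv_zero]
  have : s ∈ N.comap (MonoidHom.mulSingle (fun j => SS p j) j) := by
    rw [htop]; trivial
  exact this

/-- (B3)+(B4) -/
theorem tail_mem_core (i : ℕ) (H : Subgroup (Gam p)) (hH : H.index ≠ 0)
    (hi : ∀ j, i ≤ j → H.index < p j) :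
    tl p i (gT p 0 1 1) ∈ H.normalCore.map (Gam p).subtype ∧
    tl p i (gT p 1 0 1) ∈ H.normalCore.map (Gam p).subtype := by
  apply tail_mem
  · intro g hg n hn
    rw [Subgroup.mem_map] at hn ⊢
    obtain ⟨n', hn', hnn⟩ := hn
    refine ⟨(⟨g, hg⟩ : Gam p) * n' * (⟨g, hg⟩ : Gam p)⁻¹, ?_, ?_⟩
    · exact (Subgroup.normalCore_normal H).conj_mem n' hn' _
    · rw [map_mul, map_mul, map_inv, hnn]
      rfl
  · intro f hf
    have : H.FiniteIndex := ⟨hH⟩
    have : Finite (Gam p ⧸ H.normalCore) := inferInstance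
    obtain ⟨k, l, hkl, h⟩ := Finite.exists_ne_map_eq_of_infinite
      (fun k : ℕ => (QuotientGroup.mk (⟨f k, hf k⟩ : Gam p) : Gam p ⧸ H.normalCore))
    refine ⟨k, l, hkl, ?_⟩
    rw [QuotientGroup.eq] at h
    rw [Subgroup.mem_map]
    refine ⟨_, h, ?_⟩
    rw [map_mul, map_inv]
    rfl
  · intro j hj s
    exact sing_mem_core p H hH j (hi j hj) s

end Pool.Agent.Helper41
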