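import Mathlib
import Pool.Agent.Helper41.PG2
import Pool.Agent.Helper41.CT

/-! Upper bound for the number of subgroups of small index of `Γ`. -/

namespace Pool.Agent.Helper41

open Matrix

variable (p : ℕ → ℕ) [hp : ∀ j, Fact (p j).Prime]

/-- the head subgroup of `Γ` -/
def Ahd (i : ℕ) : Subgroup (Gam p) := (hd p i).range.subgroupOf (Gam p)

theorem mem_Ahd {i : ℕ} {g : Gam p} : g ∈ Ahd p i ↔ ∀ j, i ≤ j → g.1 j = 1 := by
  constructor
  · intro h j hj
    have h1 : g.1 ∈ (hd p i).range := h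
    obtain ⟨x, hx⟩ := h1
    rw [← hx, hd_apply, if_neg (by omega)]
  · intro h
    change g.1 ∈ (hd p i).range
    refine ⟨g.1, ?_⟩
    funext j
    rw [hd_apply]
    split_ifs with h1
    · rfl
    · exact (h j (by omega)).symm

/-- head subgroups: restriction to the first coordinates is injective -/
theorem Ahd_inj (i : ℕ) : Function.Injective
    (fun g : Ahd p i => (fun j : Fin i => g.1.1 j : ∀ j : Fin i, SS p j)) := by
  intro g h hgh
  apply Subtype.ext
  apply Subtype.ext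
  funext j
  by_cases hj : j < i
  · exact congrFun hgh ⟨j, hj⟩
  · rw [(mem_Ahd p).1 g.2 j (by omega), (mem_Ahd p).1 h.2 j (by omega)]

instance finite_Ahd (i : ℕ) : Finite (Ahd p i) := Finite.of_injective _ (Ahd_inj p i)

theorem card_Ahd (i : ℕ) (q : ℕ) (hq : ∀ j < i, p j ≤ q) :
    Nat.card (Ahd p i) ≤ q ^ (∑ j ∈ Finset.range i, rr j ^ 2) := by
  refine (Nat.card_le_card_of_injective _ (Ahd_inj p i)).trans ?_
  rw [Nat.card_pi, ← Finset.prod_pow_eq_pow_sum, Finset.prod_range]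
  apply Finset.prod_le_prod' 
  intro j _
  refine (card_SL_le (p j) (ZMod (rr j))).trans ?_
  rw [ZMod.card]
  exact Nat.pow_le_pow_left (hq j j.2) _

/-- subgroups supported on the first coordinates are boundedly generated -/
theorem genBy_head (C : ℕ → ℕ)
    (hC : ∀ j, ∀ H : Subgroup (SS p j), GenBy H (C j)) (i : ℕ) :
    ∀ H : Subgroup (GG p), (∀ g ∈ H, ∀ j, i ≤ j → g j = 1) →
      GenBy H (∑ j ∈ Finset.range i, C j) := by
  induction i with
  | zero =>
    intro H hH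
    have : H = ⊥ := by
      rw [eq_bot_iff]
      intro g hg
      rw [Subgroup.mem_bot]
      funext j
      exact hH g hg j (Nat.zero_le _)
    rw [this, Finset.sum_range_zero]
    exact genBy_bot _
  | succ i ih =>
    intro H hH
    rw [Finset.sum_range_succ, add_comm]
    apply GenBy.ext (Pi.evalMonoidHom (fun j => SS p j) i) (H := H)
    · exact hC i _
    · apply ih
      rintro g ⟨hg1, hg2⟩ j hj
      rcases Nat.eq_or_lt_of_le hj with h | h
      · subst h
        exact hg2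
      · exact hH g hg1 j h

theorem card_sub_Ahd (C : ℕ → ℕ)
    (hC : ∀ j, ∀ H : Subgroup (SS p j), GenBy H (C j)) (i : ℕ) :
    Nat.card (Subgroup (Ahd p i)) ≤ Nat.card (Ahd p i) ^ (∑ j ∈ Finset.range i, C j) := by
  apply card_subgroup_le
  intro H
  have hinj : Function.Injective ((Gam p).subtype.comp (Ahd p i).subtype) :=
    (Subgroup.subtype_injective _).comp (Subgroup.subtype_injective _)
  apply GenBy.of_map hinj
  apply genBy_head p C hC
  rintro _ ⟨g, hg, rfl⟩ j hj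
  exact (mem_Ahd p).1 g.2 j hj

/-- the normal subgroup generated by the tails -/
def N0 (i : ℕ) : Subgroup (Gam p) := Subgroup.normalClosure
  {⟨tl p i (gT p 0 1 1), tl_mem p i (a_mem p)⟩, ⟨tl p i (gT p 1 0 1), tl_mem p i (a'_mem p)⟩}

theorem N0_normal (i : ℕ) : (N0 p i).Normal := Subgroup.normalClosure_normal

/-- the tail of the rotation -/
def bet (i : ℕ) : Gam p := ⟨tl p i (gB p), tl_mem p i (b_mem p)⟩

/-- the head of an element -/
def hh (i : ℕ) (g : GG p) : Gam p := ⟨hd p i g, hd_mem p i g⟩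

theorem hh_mem (i : ℕ) (g : GG p) : hh p i g ∈ Ahd p i := by
  change hd p i g ∈ (hd p i).range
  exact ⟨g, rfl⟩

theorem Ahd_comm (i : ℕ) : ∀ x ∈ Ahd p i, x * bet p i = bet p i * x := by
  intro x hx
  have h1 : x.1 ∈ (hd p i).range := hx
  obtain ⟨y, hy⟩ := h1
  apply Subtype.ext
  change x.1 * tl p i (gB p) = tl p i (gB p) * x.1
  rw [← hy]
  exact hd_tl_comm p i y (gB p)

theorem gen_all (i : ℕ) (g : Gam p) :
    ∃ x ∈ Ahd p i, ∃ s : ℤ, ∃ n ∈ N0 p i, g = x * bet p i ^ s * n := by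
  have hcomm : ∀ x ∈ Ahd p i, ∀ s : ℤ, Commute x (bet p i ^ s) := fun x hx s =>
    Commute.zpow_right (Ahd_comm p i x hx) s
  obtain ⟨g, hg⟩ := g
  induction hg using Subgroup.closure_induction with
  | mem g hg =>
    simp only [Set.mem_insert_iff, Set.mem_singleton_iff] at hg
    rcases hg with rfl | rfl | rfl
    · refine ⟨hh p i (gT p 0 1 1), hh_mem p i _, 0, ⟨tl p i (gT p 0 1 1), tl_mem p i (a_mem p)⟩,
        Subgroup.subset_normalClosure (by simp), ?_⟩
      apply Subtype.ext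
      rw [zpow_zero, mul_one]
      exact (hd_mul_tl p i _).symm
    · refine ⟨hh p i (gT p 1 0 1), hh_mem p i _, 0, ⟨tl p i (gT p 1 0 1), tl_mem p i (a'_mem p)⟩,
        Subgroup.subset_normalClosure (by simp), ?_⟩
      apply Subtype.ext
      rw [zpow_zero, mul_one]
      exact (hd_mul_tl p i _).symm
    · refine ⟨hh p i (gB p), hh_mem p i _, 1, 1, (N0 p i).one_mem, ?_⟩
      apply Subtype.ext
      rw [zpow_one, mul_one]
      exact (hd_mul_tl p i _).symm
  | one => exact ⟨1, (Ahd p i).one_mem, 0, 1, (N0 p i).one_mem, by simp; rfl⟩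
  | mul x y hx hy ihx ihy =>
    obtain ⟨x1, hx1, s1, n1, hn1, e1⟩ := ihx
    obtain ⟨x2, hx2, s2, n2, hn2, e2⟩ := ihy
    refine ⟨x1 * x2, (Ahd p i).mul_mem hx1 hx2, s1 + s2,
      ((x2 * bet p i ^ s2)⁻¹ * n1 * (x2 * bet p i ^ s2)) * n2, ?_, ?_⟩
    · refine (N0 p i).mul_mem ?_ hn2
      have := (N0_normal p i).conj_mem n1 hn1 (x2 * bet p i ^ s2)⁻¹
      rwa [inv_inv] at this
    · have e3 : (⟨x * y, (Subgroup.mul_mem _ hx hy)⟩ : Gam p) = ⟨x, hx⟩ * ⟨y, hy⟩ := rfl
      rw [e3, e1, e2]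
      have hc := (hcomm x2 hx2 s1).eq
      rw [_root_.zpow_add]
      calc x1 * bet p i ^ s1 * n1 * (x2 * bet p i ^ s2 * n2)
          = x1 * (bet p i ^ s1 * x2) * bet p i ^ s2 *
            ((x2 * bet p i ^ s2)⁻¹ * n1 * (x2 * bet p i ^ s2) * n2) := by group
        _ = x1 * (x2 * bet p i ^ s1) * bet p i ^ s2 *
            ((x2 * bet p i ^ s2)⁻¹ * n1 * (x2 * bet p i ^ s2) * n2) := by rw [hc]
        _ = _ := by group
  | inv x hx ihx =>
    obtain ⟨x1, hx1, s1, n1, hn1, e1⟩ := ihx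
    refine ⟨x1⁻¹, (Ahd p i).inv_mem hx1, -s1,
      (x1 * bet p i ^ s1) * n1⁻¹ * (x1 * bet p i ^ s1)⁻¹, ?_, ?_⟩
    · exact (N0_normal p i).conj_mem _ ((N0 p i).inv_mem hn1) _
    · have e3 : (⟨x⁻¹, (Subgroup.inv_mem _ hx)⟩ : Gam p) = ⟨x, hx⟩⁻¹ := rfl
      rw [e3, e1]
      have hc := (hcomm x1 hx1 s1).eq
      have hc' : x1⁻¹ * bet p i ^ (-s1) = (x1 * bet p i ^ s1)⁻¹ := by
        rw [hc]; group
      rw [hc']
      group

/-- small index subgroups contain `N0` -/
theorem N0_le (i : ℕ) (H : Subgroup (Gam p)) (hH : H.index ≠ 0)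
    (hi : ∀ j, i ≤ j → H.index < p j) : N0 p i ≤ H := by
  have h1 := tail_mem_core p i H hH hi
  have h2 : N0 p i ≤ H.normalCore := by
    apply Subgroup.normalClosure_le_normal
    intro g hg
    simp only [Set.mem_insert_iff, Set.mem_singleton_iff] at hg
    rcases hg with rfl | rfl
    · obtain ⟨n, hn, hnn⟩ := Subgroup.mem_map.1 h1.1
      have : n = ⟨tl p i (gT p 0 1 1), tl_mem p i (a_mem p)⟩ := Subtype.ext hnn
      rw [← this]; exact hn
    · obtain ⟨n, hn, hnn⟩ := Subgroup.mem_map.1 h1.2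
      have : n = ⟨tl p i (gT p 1 0 1), tl_mem p i (a'_mem p)⟩ := Subtype.ext hnn
      rw [← this]; exact hn
  exact h2.trans H.normalCore_le

/-- The set of subgroups of index at most `n`. -/
def subs (Γ : Type) [Group Γ] (n : ℕ) : Set (Subgroup Γ) := {H | H.index ≠ 0 ∧ H.index ≤ n}

/-- Upper bound. -/
theorem upper (C : ℕ → ℕ) (hC : ∀ j, ∀ H : Subgroup (SS p j), GenBy H (C j))
    (hmono : StrictMono p) (i n : ℕ) (h1 : p i ≤ n) (h2 : n < p (i + 1)) :
    (subs (Gam p) n).Finite ∧ (subs (Gam p) n).ncard ≤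
      n ^ ((∑ j ∈ Finset.range (i + 1), rr j ^ 2) * (∑ j ∈ Finset.range (i + 1), C j)
        + (∑ j ∈ Finset.range (i + 1), rr j ^ 2) + 2) := by
  have hn2 : 2 ≤ n := (hp i).out.two_le.trans h1
  have key := count_index (Ahd p (i + 1)) (bet p (i + 1)) (Ahd_comm p (i + 1)) (N0 p (i + 1))
    (gen_all p (i + 1)) n (subs (Gam p) n) (by
      rintro H ⟨hH0, hHn⟩
      refine ⟨N0_le p (i + 1) H hH0 ?_, hH0, hHn⟩
      intro j hj
      have := hmono.monotone hj
      omega)
  refine ⟨key.1, key.2.trans ?_⟩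
  have hcard : Nat.card (Ahd p (i + 1)) ≤ n ^ (∑ j ∈ Finset.range (i + 1), rr j ^ 2) := by
    apply card_Ahd
    intro j hj
    have := hmono.monotone (show j ≤ i by omega)
    omega
  have hsub : Nat.card (Subgroup (Ahd p (i + 1))) ≤
      n ^ ((∑ j ∈ Finset.range (i + 1), rr j ^ 2) * (∑ j ∈ Finset.range (i + 1), C j)) := by
    refine (card_sub_Ahd p C hC (i + 1)).trans ?_
    rw [pow_mul]
    exact Nat.pow_le_pow_left hcard _
  have hn : n + 1 ≤ n ^ 2 := by nlinarith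
  rw [pow_add, pow_add]
  exact Nat.mul_le_mul (Nat.mul_le_mul hsub hcard) hn

end Pool.Agent.Helper41
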