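import Mathlib
import Pool.Agent.Helper41.PG3

/-! Lower bound for the number of subgroups of `Γ`. -/

namespace Pool.Agent.Helper41

open Matrix

section unip

variable {F : Type} [Field F] {ι α γ : Type} [Fintype ι] [DecidableEq ι] [Fintype α]
  [DecidableEq α] [Fintype γ] [DecidableEq γ]

/-- unipotent block matrix -/
def uni (e : ι ≃ α ⊕ γ) (X : Matrix α γ F) : Matrix.SpecialLinearGroup ι F :=
  ⟨(fromBlocks 1 X 0 1).submatrix e e, by
    rw [det_submatrix_equiv_self, det_fromBlocks_zero₂₁, det_one, det_one, one_mul]⟩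

theorem uni_add (e : ι ≃ α ⊕ γ) (X Y : Matrix α γ F) : uni e (X + Y) = uni e X * uni e Y := by
  apply sl_ext
  rw [Matrix.SpecialLinearGroup.coe_mul]
  change (fromBlocks 1 (X + Y) 0 1).submatrix e e =
    (fromBlocks 1 X 0 1).submatrix e e * (fromBlocks 1 Y 0 1).submatrix e e
  rw [submatrix_mul_equiv, fromBlocks_multiply]
  simp [add_comm]

theorem uni_inj (e : ι ≃ α ⊕ γ) : Function.Injective (uni e : Matrix α γ F → _) := by
  intro X Y h
  have h1 : (fromBlocks 1 X 0 1).submatrix e e = (fromBlocks 1 Y 0 1).submatrix e e :=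
    congrArg Subtype.val h
  have h2 := congrArg (fun M : Matrix ι ι F => M.submatrix e.symm e.symm) h1
  simp only [submatrix_submatrix] at h2
  have h3 : (e ∘ e.symm : α ⊕ γ → α ⊕ γ) = id := by funext x; simp
  rw [h3] at h2
  simp only [submatrix_id_id] at h2
  exact (fromBlocks_inj.1 h2).2.1

end unip

section graphs

variable {F : Type} [Field F] [Finite F] {ι γ : Type} [Fintype ι] [DecidableEq ι]
  [Fintype γ] [DecidableEq γ]

/-- the matrix attached to a vector and its image -/
def grX (T : Matrix (γ × γ) (γ × γ) F) (w : γ × γ → F) : Matrix (γ ⊕ γ) γ F :=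
  Matrix.of (Sum.elim (fun i k => w (i, k)) (fun i k => (T *ᵥ w) (i, k)))

omit [Finite F] [DecidableEq γ] in
theorem grX_add (T : Matrix (γ × γ) (γ × γ) F) (w w' : γ × γ → F) :
    grX T (w + w') = grX T w + grX T w' := by
  ext i k
  rcases i with i | i
  · simp [grX]
  · simp [grX, mulVec_add]

/-- the homomorphism attached to a graph -/
def grHom (e : ι ≃ (γ ⊕ γ) ⊕ γ) (T : Matrix (γ × γ) (γ × γ) F) :
    Multiplicative (γ × γ → F) →* Matrix.SpecialLinearGroup ι F :=
  MonoidHom.mk' (fun w => uni e (grX T w.toAdd)) (by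
    intro a b
    rw [toAdd_mul, grX_add, uni_add])

theorem range_grHom_inj (e : ι ≃ (γ ⊕ γ) ⊕ γ) :
    Function.Injective (fun T : Matrix (γ × γ) (γ × γ) F => (grHom e T).range) := by
  intro T T' h
  simp only at h
  apply Matrix.ext_of_mulVec_single
  intro i
  have h1 : grHom e T (Multiplicative.ofAdd (Pi.single i 1)) ∈ (grHom e T').range := by
    rw [← h]; exact ⟨_, rfl⟩
  obtain ⟨w, hw⟩ := h1
  have h2 : grX T' w.toAdd = grX T (Pi.single i 1) := uni_inj e hw
  have h3 : w.toAdd = Pi.single i 1 := by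
    funext x
    have := congrFun (congrFun h2 (Sum.inl x.1)) x.2
    simpa [grX] using this
  rw [h3] at h2
  funext x
  have := congrFun (congrFun h2 (Sum.inr x.1)) x.2
  simp only [grX, of_apply, Sum.elim_inr] at this
  exact this.symm

theorem card_subgroup_SL_ge (e : ι ≃ (γ ⊕ γ) ⊕ γ) [Finite (Matrix.SpecialLinearGroup ι F)] :
    Nat.card F ^ (Fintype.card γ ^ 4) ≤ Nat.card (Subgroup (Matrix.SpecialLinearGroup ι F)) := by
  have h1 : Nat.card (Matrix (γ × γ) (γ × γ) F) = Nat.card F ^ (Fintype.card γ ^ 4) := by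
    change Nat.card (γ × γ → γ × γ → F) = _
    rw [Nat.card_fun, Nat.card_fun, ← pow_mul, Nat.card_prod, Nat.card_eq_fintype_card (α := γ)]
    congr 1
    ring
  rw [← h1]
  exact Nat.card_le_card_of_injective _ (range_grHom_inj e)

end graphs

variable (p : ℕ → ℕ) [hp : ∀ j, Fact (p j).Prime]

/-- evaluation of `Γ` -/
def ev (j : ℕ) : Gam p →* SS p j := (Pi.evalMonoidHom (fun j => SS p j) j).comp (Gam p).subtype

theorem ev_surj (j : ℕ) : Function.Surjective (ev p j) := by
  intro s
  refine ⟨⟨Pi.mulSingle j s, single_mem p j s⟩, ?_⟩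
  change (Pi.mulSingle j s : GG p) j = s
  exact Pi.mulSingle_eq_same _ _

theorem lower (j : ℕ) (n : ℕ) (hn : p j ^ (9 * (2 * j + 1) ^ 2) ≤ n)
    (hfin : (subs (Gam p) n).Finite) :
    p j ^ ((2 * j + 1) ^ 4) ≤ (subs (Gam p) n).ncard := by
  have e : ZMod (rr j) ≃ (Fin (2 * j + 1) ⊕ Fin (2 * j + 1)) ⊕ Fin (2 * j + 1) := by
    apply Fintype.equivOfCardEq
    rw [ZMod.card]
    simp only [Fintype.card_sum, Fintype.card_fin, rr]
    ring
  have h1 := card_subgroup_SL_ge (F := ZMod (p j)) e
  rw [Fintype.card_fin, Nat.card_zmod] at h1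
  refine h1.trans ?_
  have hinj : Function.Injective (Subgroup.comap (ev p j)) :=
    Subgroup.comap_injective (ev_surj p j)
  have hmem : ∀ K : Subgroup (SS p j), K.comap (ev p j) ∈ subs (Gam p) n := by
    intro K
    have h2 : (K.comap (ev p j)).index = K.index := Subgroup.index_comap_of_surjective _ (ev_surj p j)
    have h3 : K.index ∣ Nat.card (SS p j) := K.index_dvd_card
    have h4 : Nat.card (SS p j) ≤ p j ^ (9 * (2 * j + 1) ^ 2) := by
      refine (card_SL_le (p j) (ZMod (rr j))).trans (le_of_eq ?_)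
      rw [ZMod.card, rr]
      congr 1
      ring
    have h5 : 0 < Nat.card (SS p j) := Nat.card_pos
    have h6 : K.index ≤ Nat.card (SS p j) := Nat.le_of_dvd h5 h3
    refine ⟨?_, ?_⟩
    · rw [h2]
      intro h7
      rw [h7] at h3
      have := Nat.eq_zero_of_zero_dvd h3
      omega
    · rw [h2]; omega
  have : Finite (subs (Gam p) n) := hfin
  exact Nat.card_le_card_of_injective
    (fun K : Subgroup (SS p j) => (⟨K.comap (ev p j), hmem K⟩ : subs (Gam p) n))
    (fun K K' h => hinj (congrArg Subtype.val h))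

end Pool.Agent.Helper41
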