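import Mathlib
import Pool.Agent.Helper41.LB

/-! Assembly: choice of the primes. -/

namespace Pool.Agent.Helper41

open Filter

/-- the exponent occurring in the upper bound -/
def expo (C : ℕ → ℕ) (i : ℕ) : ℕ :=
  (∑ j ∈ Finset.range (i + 1), rr j ^ 2) * (∑ j ∈ Finset.range (i + 1), C j)
        + (∑ j ∈ Finset.range (i + 1), rr j ^ 2) + 2

theorem exists_primes (K : ℕ → ℕ) (g : ℕ → ℝ) (hg : ∀ n, 0 < g n)
    (hlim : Tendsto (fun n : ℕ => Real.log (g n) / Real.log n) atTop atTop) :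
    ∃ p : ℕ → ℕ, StrictMono p ∧ ∀ j, (p j).Prime ∧ ∀ n, p j ≤ n → (n : ℝ) ^ (K j) < g n := by
  apply Filter.extraction_forall_of_frequently
    (P := fun j q => q.Prime ∧ ∀ n, q ≤ n → (n : ℝ) ^ (K j) < g n)
  intro j
  have h1 : ∀ᶠ n : ℕ in atTop, (n : ℝ) ^ (K j) < g n := by
    filter_upwards [hlim.eventually_gt_atTop (K j : ℝ), eventually_ge_atTop 2] with n hn hn2
    have hn1 : (1 : ℝ) < n := by exact_mod_cast hn2
    have hlog : 0 < Real.log n := Real.log_pos hn1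
    rw [lt_div_iff₀ hlog] at hn
    have h3 : Real.log ((n : ℝ) ^ (K j)) < Real.log (g n) := by
      rw [Real.log_pow]; exact hn
    exact (Real.log_lt_log_iff (by positivity) (hg n)).1 h3
  obtain ⟨N, hN⟩ := eventually_atTop.1 h1
  have h2 : ∀ᶠ q : ℕ in atTop, ∀ n, q ≤ n → (n : ℝ) ^ (K j) < g n := by
    filter_upwards [eventually_ge_atTop N] with q hq n hn
    exact hN n (hq.trans hn)
  have h3 : ∃ᶠ q : ℕ in atTop, q.Prime :=
    Nat.frequently_atTop_iff_infinite.2 Nat.infinite_setOfPred_prime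
  exact h3.and_eventually h2

theorem exists_between (p : ℕ → ℕ) (hp : StrictMono p) (n : ℕ) (hn : p 0 ≤ n) :
    ∃ i, p i ≤ n ∧ n < p (i + 1) := by
  have hex : ∃ i, n < p i := ⟨n + 1, by have := hp.le_apply (x := n + 1); omega⟩
  have h0 : Nat.find hex ≠ 0 := by
    intro h
    have := Nat.find_spec hex
    rw [h] at this
    omega
  obtain ⟨i, hi⟩ := Nat.exists_eq_succ_of_ne_zero h0
  refine ⟨i, ?_, ?_⟩
  · have := Nat.find_min hex (m := i) (by omega)
    omega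
  · have := Nat.find_spec hex
    rw [hi] at this
    exact this

theorem fg_Gam (p : ℕ → ℕ) [hp : ∀ j, Fact (p j).Prime] : Group.FG (Gam p) := by
  classical
  rw [Group.fg_iff_subgroup_fg]
  exact ⟨{gT p 0 1 1, gT p 1 0 1, gB p}, by simp [Gam]⟩

theorem subs_mono (Γ : Type) [Group Γ] {m n : ℕ} (h : m ≤ n) : subs Γ m ⊆ subs Γ n :=
  fun _ hH => ⟨hH.1, hH.2.trans h⟩

theorem gap_main (g : ℕ → ℝ) (hg : ∀ n, 0 < g n)
    (hlim : Tendsto (fun n : ℕ => Real.log (g n) / Real.log n) atTop atTop) :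
    ∃ (Γ : Type) (_ : Group Γ), Group.FG Γ ∧
      (∀ x : Γ, x ≠ 1 → ∃ N : Subgroup Γ, N.Normal ∧ N.index ≠ 0 ∧ x ∉ N) ∧
      (∀ n, (subs Γ n).Finite) ∧
      (¬ ∃ c : ℝ, ∀ n : ℕ, 1 ≤ n → ((subs Γ n).ncard : ℝ) ≤ (n : ℝ) ^ c) ∧
      ∀ᶠ n : ℕ in atTop, ((subs Γ n).ncard : ℝ) < g n := by
  choose C hC using fun j => exists_rank_bound (rr j)
  obtain ⟨p, hmono, hp'⟩ := exists_primes (expo C) g hg hlim
  have hp : ∀ j, Fact (p j).Prime := fun j => ⟨(hp' j).1⟩
  have hgen : ∀ j, ∀ H : Subgroup (SS p j), GenBy H (C j) := fun j H =>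
    hC j (p j) (ZMod (rr j)) (ZMod.card _) H
  have hup : ∀ n, p 0 ≤ n → (subs (Gam p) n).Finite ∧ ∃ i, p i ≤ n ∧
      (subs (Gam p) n).ncard ≤ n ^ expo C i := by
    intro n hn
    obtain ⟨i, hi1, hi2⟩ := exists_between p hmono n hn
    have := upper p C hgen hmono i n hi1 hi2
    exact ⟨this.1, i, hi1, this.2⟩
  have hfin : ∀ n, (subs (Gam p) n).Finite := by
    intro n
    have := (hup (max n (p 0)) (le_max_right _ _)).1
    exact this.subset (subs_mono _ (le_max_left _ _))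
  refine ⟨Gam p, inferInstance, fg_Gam p, ?_, hfin, ?_, ?_⟩
  · intro x hx
    have : ∃ j, x.1 j ≠ 1 := by
      by_contra h
      push Not at h
      apply hx
      apply Subtype.ext
      funext j
      exact h j
    obtain ⟨j, hj⟩ := this
    refine ⟨(ev p j).ker, inferInstance, ?_, ?_⟩
    · rw [Subgroup.index_ker]
      have : Finite (ev p j).range := inferInstance
      exact Nat.card_pos.ne'
    · intro h
      exact hj h
  · rintro ⟨c, hc⟩
    obtain ⟨j, hj⟩ := exists_nat_gt (9 * c)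
    have hp1 : (1 : ℝ) < p j := by exact_mod_cast (hp j).out.one_lt
    have hp0 : (0 : ℝ) < p j := by linarith
    set m : ℕ := 2 * j + 1 with hm
    have h1 := lower p j (p j ^ (9 * m ^ 2)) le_rfl (hfin _)
    have h2 := hc (p j ^ (9 * m ^ 2)) (Nat.one_le_pow _ _ (hp j).out.pos)
    have h3 : ((p j : ℝ)) ^ (m ^ 4) ≤ ((p j : ℝ) ^ (9 * m ^ 2)) ^ c := by
      refine le_trans ?_ (h2.trans (le_of_eq ?_))
      · exact_mod_cast h1
      · push_cast; rfl
    rw [← Real.rpow_natCast, ← Real.rpow_natCast, ← Real.rpow_mul hp0.le,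
      Real.rpow_le_rpow_left_iff hp1] at h3
    push_cast at h3
    have hm1 : (1 : ℝ) ≤ m := by rw [hm]; push_cast; linarith [Nat.cast_nonneg (α := ℝ) j]
    have hmj : (j : ℝ) ≤ m := by rw [hm]; push_cast; linarith [Nat.cast_nonneg (α := ℝ) j]
    have h4 : (m : ℝ) ^ 2 ≤ 9 * c := by
      have h5 : (m : ℝ) ^ 2 * (m : ℝ) ^ 2 ≤ (9 * c) * (m : ℝ) ^ 2 := by nlinarith
      exact le_of_mul_le_mul_right h5 (by positivity)
    nlinarith
  · filter_upwards [eventually_ge_atTop (p 0)] with n hn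
    obtain ⟨_, i, hi1, hi2⟩ := hup n hn
    refine lt_of_le_of_lt ?_ ((hp' i).2 n hi1)
    exact_mod_cast hi2

end Pool.Agent.Helper41
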