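import Mathlib
import Pool.Agent.Helper41.GapMain

/-! # There is no gap in the subgroup growth of finitely generated groups

`sigma Γ n` is the number of subgroups of index at most `n`.  For every function `g` with
`log g(n) / log n → ∞` there is a finitely generated (residually finite) group `Γ` that does not
have polynomial subgroup growth but has `σ_n(Γ) < g(n)` for all large `n`.  In particular the
proposed gap `n ^ (c log n / (log log n)^2)` fails.
-/

namespace Pool.Agent.Helper41.NoGapMain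

open Filter

/-- The set of subgroups of (finite) index at most `n`.  In Mathlib infinite index is `0`. -/
def subgroupsUpTo (Γ : Type) [Group Γ] (n : ℕ) : Set (Subgroup Γ) :=
  {H | H.index ≠ 0 ∧ H.index ≤ n}

/-- `σ_n(Γ)`: the number of subgroups of index at most `n`. -/
noncomputable def sigma (Γ : Type) [Group Γ] (n : ℕ) : ℕ := (subgroupsUpTo Γ n).ncard

/-- Polynomial subgroup growth. -/
def PSG (Γ : Type) [Group Γ] : Prop := ∃ c : ℝ, ∀ n : ℕ, 1 ≤ n → (sigma Γ n : ℝ) ≤ (n : ℝ) ^ c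

/-- Residual finiteness. -/
def ResFin (Γ : Type) [Group Γ] : Prop :=
  ∀ x : Γ, x ≠ 1 → ∃ N : Subgroup Γ, N.Normal ∧ N.index ≠ 0 ∧ x ∉ N

theorem no_gap (g : ℕ → ℝ) (hg : ∀ n, 0 < g n)
    (hlim : Tendsto (fun n : ℕ => Real.log (g n) / Real.log n) atTop atTop) :
    ∃ (Γ : Type) (_ : Group Γ), Group.FG Γ ∧ ResFin Γ ∧ (∀ n, (subgroupsUpTo Γ n).Finite) ∧
      ¬ PSG Γ ∧ ∀ᶠ n : ℕ in atTop, (sigma Γ n : ℝ) < g n :=
  Pool.Agent.Helper41.gap_main g hg hlim

theorem loglog_bound (c : ℝ) (hc : 0 < c) : ∀ᶠ n : ℕ in atTop,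
    Real.exp (Real.sqrt (Real.log n) * Real.log n) ≤
      (n : ℝ) ^ (c * Real.log n / (Real.log (Real.log n)) ^ 2) := by
  have h1 : ∀ᶠ y : ℝ in atTop, Real.log y ^ 2 ≤ (c / 4) * y := by
    have := (Real.isLittleO_pow_log_id_atTop (n := 2)).def (show 0 < c / 4 by positivity)
    filter_upwards [this, eventually_ge_atTop 0] with y hy hy0
    simp only [Real.norm_eq_abs, id] at hy
    rw [abs_of_nonneg hy0, abs_of_nonneg (by positivity)] at hy
    exact hy
  have h2 : Tendsto (fun n : ℕ => Real.sqrt (Real.log n)) atTop atTop :=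
    (Real.tendsto_sqrt_atTop.comp Real.tendsto_log_atTop).comp tendsto_natCast_atTop_atTop
  filter_upwards [h2.eventually h1, h2.eventually_gt_atTop 1, eventually_ge_atTop 2]
    with n h3 h4 h5
  have hn : (0 : ℝ) < n := by
    have : (2 : ℝ) ≤ n := by exact_mod_cast h5
    linarith
  have hL0 : 0 ≤ Real.log n := by
    by_contra h
    rw [Real.sqrt_eq_zero_of_nonpos (by linarith)] at h4
    linarith
  have hL : Real.log n = Real.sqrt (Real.log n) ^ 2 := (Real.sq_sqrt hL0).symm
  set y := Real.sqrt (Real.log n) with hy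
  have hy0 : 0 < y := by linarith
  have hlogy : 0 < Real.log y := Real.log_pos h4
  have hll : Real.log (Real.log n) = 2 * Real.log y := by
    rw [hL, Real.log_pow]; push_cast; ring
  rw [Real.rpow_def_of_pos hn, Real.exp_le_exp, hll, mul_div_assoc']
  rw [le_div_iff₀ (by positivity)]
  rw [hL]
  have h6 : Real.log y ^ 2 * (4 * y ^ 3) ≤ (c / 4) * y * (4 * y ^ 3) :=
    mul_le_mul_of_nonneg_right h3 (by positivity)
  nlinarith

theorem tendsto_special : Tendsto (fun n : ℕ =>
    Real.log (Real.exp (Real.sqrt (Real.log n) * Real.log n)) / Real.log n) atTop atTop := by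
  have h2 : Tendsto (fun n : ℕ => Real.sqrt (Real.log n)) atTop atTop :=
    (Real.tendsto_sqrt_atTop.comp Real.tendsto_log_atTop).comp tendsto_natCast_atTop_atTop
  refine h2.congr' ?_
  filter_upwards [eventually_ge_atTop 2] with n hn
  have hn1 : (1 : ℝ) < n := by exact_mod_cast hn
  have := Real.log_pos hn1
  rw [Real.log_exp]
  field_simp

/-- **No gap.**  First part: the negated form of Q1.  Second part: the statement in Q2 is false:
one finitely generated non-PSG group violates the proposed bound for every `c > 0` and all large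
`n`. -/
theorem result :
    (∀ g : ℕ → ℝ, (∀ n, 0 < g n) →
      Tendsto (fun n : ℕ => Real.log (g n) / Real.log n) atTop atTop →
      ∃ (Γ : Type) (_ : Group Γ), Group.FG Γ ∧ ResFin Γ ∧ (∀ n, (subgroupsUpTo Γ n).Finite) ∧
        ¬ PSG Γ ∧ ∀ᶠ n : ℕ in atTop, (sigma Γ n : ℝ) < g n) ∧
    (∃ (Γ : Type) (_ : Group Γ), Group.FG Γ ∧ ResFin Γ ∧ (∀ n, (subgroupsUpTo Γ n).Finite) ∧
      ¬ PSG Γ ∧ ∀ c : ℝ, 0 < c → ∀ᶠ n : ℕ in atTop,
        (sigma Γ n : ℝ) < (n : ℝ) ^ (c * Real.log n / (Real.log (Real.log n)) ^ 2)) := by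
  refine ⟨no_gap, ?_⟩
  obtain ⟨Γ, hΓ, h1, h2, h3, h4, h5⟩ := no_gap
    (fun n => Real.exp (Real.sqrt (Real.log n) * Real.log n)) (fun n => Real.exp_pos _)
    tendsto_special
  refine ⟨Γ, hΓ, h1, h2, h3, h4, ?_⟩
  intro c hc
  filter_upwards [h5, loglog_bound c hc] with n hn hn'
  exact lt_of_lt_of_le hn hn'

end Pool.Agent.Helper41.NoGapMain
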